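import Pool.Agent.H74.BTL.Targets

/-!
# Dimension of two subspaces with intersection zero
-/

set_option autoImplicit false

open scoped ENNReal RealInnerProductSpace

universe u

namespace Pool.Agent.H74.BTL

theorem pf_ADD (h1 : T_RNT.{u}) (h2 : T_EQA.{u}) (h3 : T_DMB.{u}) : T_ADD.{u} := by
  classical
  intro G _ I _ V W Z hV hW hZ hVW hVZ hWZ
  obtain ⟨d1, d2, -, d4⟩ := h3 G I
  have hVo := ((h2 G I I).2.2 V hV).2.1
  have hEq := ((h2 G I I).2.2 Vᗮ hVo).2.2.1
  have e1 := h1 G I I (PR Vᗮ) W hEq hW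
  have hPR : ∀ x : L2 (G × I), PR Vᗮ x = x - PR V x := by
    intro x
    unfold PR
    have e2 : (Vᗮ).topologicalClosure = (V.topologicalClosure)ᗮ := by
      rw [(Submodule.isClosed_orthogonal V).submodule_topologicalClosure_eq,
        Submodule.orthogonal_closure]
    have e3 : (Vᗮ).topologicalClosure.starProjection = (V.topologicalClosure)ᗮ.starProjection := by
      congr 1
    rw [e3, Submodule.starProjection_orthogonal]
    rfl
  have hker : W.topologicalClosure ⊓ kr (PR Vᗮ) = ⊥ := by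
    rw [eq_bot_iff]
    intro x hx
    obtain ⟨hx1, hx2⟩ := Submodule.mem_inf.1 hx
    have e2 := mem_kr.1 hx2
    rw [hPR, sub_eq_zero] at e2
    have e3 : x ∈ V.topologicalClosure := by
      rw [e2]
      exact Submodule.starProjection_apply_mem _ _
    have e4 : x ∈ V.topologicalClosure ⊓ W.topologicalClosure := ⟨e3, hx1⟩
    rwa [hVW] at e4
  have hbot : dm (⊥ : Submodule ℝ (L2 (G × I))) = 0 := by
    have e2 := d4 ⊥ ⊥ (fun v hv w _ => by
      rw [(Submodule.mem_bot ℝ).1 hv, inner_zero_left])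
    rw [sup_idem] at e2
    linarith
  rw [hker, hbot, zero_add] at e1
  have e5 := d4 V (mp (PR Vᗮ) W) (fun v hv w hw => by
    obtain ⟨x, -, rfl⟩ := mem_mp.1 hw
    have e6 : PR Vᗮ x ∈ Vᗮ := by
      have e7 : PR Vᗮ x ∈ (Vᗮ).topologicalClosure := Submodule.starProjection_apply_mem _ _
      rwa [(Submodule.isClosed_orthogonal V).submodule_topologicalClosure_eq] at e7
    exact (Submodule.mem_orthogonal V _).1 e6 v hv)
  rw [e1, ← e5]
  refine d1 _ _ (sup_le hVZ ?_)
  intro w hw
  obtain ⟨x, hx, rfl⟩ := mem_mp.1 hw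
  rw [hPR]
  refine Submodule.sub_mem _ (hWZ hx) ?_
  have e8 : V.topologicalClosure ≤ Z.topologicalClosure :=
    Submodule.topologicalClosure_minimal _ hVZ Z.isClosed_topologicalClosure
  exact e8 (Submodule.starProjection_apply_mem _ _)

end Pool.Agent.H74.BTL
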