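import Mathlib

/-!
# The Littlewood exponent is invariant under quotients by amenable normal subgroups
-/

open scoped ENNReal

namespace Pool.Agent.H74.BTL.AQ

/-- The space `T₁(Γ)` of functions `f : Γ → ℂ` such that `f (x⁻¹ y) = f₁ (x, y) + f₂ (x, y)` with
`sup_x ∑_y |f₁ (x, y)| < ∞` and `sup_y ∑_x |f₂ (x, y)| < ∞`. -/
def T1 (Γ : Type*) [Group Γ] : Set (Γ → ℂ) :=
  {f | ∃ f₁ f₂ : Γ → Γ → ℂ, (∀ x y, f (x⁻¹ * y) = f₁ x y + f₂ x y) ∧
    (⨆ x, ∑' y, ‖f₁ x y‖ₑ) < ∞ ∧ (⨆ y, ∑' x, ‖f₂ x y‖ₑ) < ∞}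

/-- The Littlewood exponent `inf {p > 0 : T₁(Γ) ⊆ ℓᵖ(Γ)}`, an element of `[0, ∞]`, with
`inf ∅ = ∞`. -/
noncomputable def Lit (Γ : Type*) [Group Γ] : ℝ≥0∞ :=
  sInf {p : ℝ≥0∞ | 0 < p ∧ p < ∞ ∧ ∀ f ∈ T1 Γ, Memℓp f p}

/-- A real function on `N` is bounded. -/
def Bdd {N : Type*} (φ : N → ℝ) : Prop := ∃ C, ∀ x, |φ x| ≤ C

/-- Amenability of a discrete group `N`: there is a left-invariant mean on the bounded real
functions on `N`, that is, a functional `M` (its values at unbounded functions are irrelevant) which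
on bounded functions is additive and homogeneous, is nonnegative on nonnegative functions, takes the
value `1` at the constant function `1`, and is invariant under left translations. -/
def IsAmenable (N : Type*) [Group N] : Prop :=
  ∃ M : (N → ℝ) → ℝ,
    (∀ φ ψ, Bdd φ → Bdd ψ → M (fun x => φ x + ψ x) = M φ + M ψ) ∧
    (∀ (c : ℝ) φ, Bdd φ → M (fun x => c * φ x) = c * M φ) ∧
    (∀ φ, Bdd φ → (∀ x, 0 ≤ φ x) → 0 ≤ M φ) ∧
    M (fun _ => 1) = 1 ∧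
    (∀ (g : N) φ, Bdd φ → M (fun x => φ (g * x)) = M φ)

section Mean

variable {N : Type*} [Group N]

/-- A right-invariant mean, as a function on all real functions (only meaningful on the bounded
ones). -/
structure Mean (N : Type*) [Group N] where
  m : (N → ℝ) → ℝ
  mono : ∀ φ ψ : N → ℝ, (∃ C, ∀ x, |φ x| ≤ C) → (∃ C, ∀ x, |ψ x| ≤ C) → (∀ x, φ x ≤ ψ x) → m φ ≤ m ψ
  add : ∀ φ ψ : N → ℝ, (∃ C, ∀ x, |φ x| ≤ C) → (∃ C, ∀ x, |ψ x| ≤ C) →
    m (fun x => φ x + ψ x) = m φ + m ψ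
  const : ∀ c : ℝ, m (fun _ => c) = c
  trans : ∀ (g : N) (φ : N → ℝ), (∃ C, ∀ x, |φ x| ≤ C) → m (fun x => φ (x * g)) = m φ

theorem exists_mean (h : IsAmenable N) : Nonempty (Mean N) := by
  obtain ⟨M, hadd, hsmul, hpos, hone, hinv⟩ := h
  have key : ∀ φ : N → ℝ, (∃ C, ∀ x, |φ x| ≤ C) → Bdd (fun x => φ x⁻¹) := by
    rintro φ ⟨C, hC⟩
    exact ⟨C, fun x => hC _⟩
  have hadd' : ∀ φ ψ : N → ℝ, (∃ C, ∀ x, |φ x| ≤ C) → (∃ C, ∀ x, |ψ x| ≤ C) →
      M (fun x => φ x⁻¹ + ψ x⁻¹) = M (fun x => φ x⁻¹) + M (fun x => ψ x⁻¹) :=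
    fun φ ψ h1 h2 => hadd (fun x => φ x⁻¹) (fun x => ψ x⁻¹) (key φ h1) (key ψ h2)
  refine ⟨⟨fun φ => M (fun x => φ x⁻¹), ?_, hadd', ?_, ?_⟩⟩
  · intro φ ψ h1 h2 hle
    have h3 : ∃ C, ∀ x, |ψ x - φ x| ≤ C := by
      obtain ⟨C, hC⟩ := h1
      obtain ⟨D, hD⟩ := h2
      exact ⟨D + C, fun x => (abs_sub _ _).trans (add_le_add (hD x) (hC x))⟩
    have h4 := hadd' (fun x => ψ x - φ x) φ h3 h1
    have h5 : (fun x : N => ψ x⁻¹ - φ x⁻¹ + φ x⁻¹) = fun x => ψ x⁻¹ := by funext x; ring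
    simp only [h5] at h4
    have h6 : 0 ≤ M (fun x => ψ x⁻¹ - φ x⁻¹) :=
      hpos (fun x => ψ x⁻¹ - φ x⁻¹) (key (fun x => ψ x - φ x) h3) fun x => sub_nonneg.2 (hle _)
    change M (fun x => φ x⁻¹) ≤ M (fun x => ψ x⁻¹)
    linarith
  · intro c
    have h1 := hsmul c (fun _ => 1) ⟨1, fun x => by simp⟩
    simpa [hone] using h1
  · intro g φ h1
    have h2 := hinv g⁻¹ (fun x => φ x⁻¹) (key φ h1)
    simpa using h2

end Mean

namespace Mean

variable {N : Type*} [Group N] (M : Mean N)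

theorem sum {ι : Type*} (s : Finset ι) (φ : ι → N → ℝ) (h : ∀ i ∈ s, ∃ C, ∀ x, |φ i x| ≤ C) :
    M.m (fun x => ∑ i ∈ s, φ i x) = ∑ i ∈ s, M.m (φ i) := by
  classical
  induction s using Finset.induction_on with
  | empty => simpa using M.const 0
  | insert a s ha ih =>
    have h1 : ∀ i ∈ s, ∃ C, ∀ x, |φ i x| ≤ C := fun i hi => h i (Finset.mem_insert_of_mem hi)
    choose! C hC using h1
    have h2 : ∃ C, ∀ x, |∑ i ∈ s, φ i x| ≤ C :=
      ⟨∑ i ∈ s, C i, fun x => (Finset.abs_sum_le_sum_abs _ _).trans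
        (Finset.sum_le_sum fun i hi => hC i hi x)⟩
    simp only [Finset.sum_insert ha]
    rw [M.add _ _ (h a (Finset.mem_insert_self _ _)) h2, ih fun i hi => ⟨C i, hC i hi⟩]

end Mean

section Main

variable {Γ : Type*} [Group Γ] (N : Subgroup Γ) [hNn : N.Normal]

/-- The element `n * σ(q)` of `Γ`, where `σ` is a section of `Γ → Γ ⧸ N`. -/
noncomputable def el (n : N) (q : Γ ⧸ N) : Γ := (n : Γ) * q.out

theorem mk_el (n : N) (q : Γ ⧸ N) : ((el N n q : Γ) : Γ ⧸ N) = q := by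
  unfold el
  rw [QuotientGroup.mk_mul, (QuotientGroup.eq_one_iff (n : Γ)).2 n.2, one_mul,
    QuotientGroup.out_eq']

theorem el_injective : Function.Injective (fun x : (Γ ⧸ N) × N => el N x.2 x.1) := by
  rintro ⟨q, n⟩ ⟨q', n'⟩ h
  have h1 : q = q' := by
    have := congrArg (fun g : Γ => (g : Γ ⧸ N)) h
    simpa only [mk_el] using this
  subst h1
  simp only [el, mul_left_inj] at h
  simpa using h

theorem pushforward (M : Mean N) {f : Γ → ℂ} (hf : f ∈ T1 Γ) :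
    (∀ r : Γ ⧸ N, ∑' g : ((fun g : Γ => (g : Γ ⧸ N)) ⁻¹' {r}), ‖f g‖ₑ ≠ ∞) ∧
    (fun r : Γ ⧸ N => (((∑' g : ((fun g : Γ => (g : Γ ⧸ N)) ⁻¹' {r}), ‖f g‖ₑ).toReal : ℝ) : ℂ)) ∈
      T1 (Γ ⧸ N) := by
  classical
  obtain ⟨f₁, f₂, hfs, h1, h2⟩ := hf
  set C₁ := (⨆ x, ∑' y, ‖f₁ x y‖ₑ) with hC₁
  set C₂ := (⨆ y, ∑' x, ‖f₂ x y‖ₑ) with hC₂
  have hb1 : ∀ x, ∑' y, ‖f₁ x y‖ₑ ≤ C₁ := fun x => le_iSup (fun x => ∑' y, ‖f₁ x y‖ₑ) x
  have hb2 : ∀ y, ∑' x, ‖f₂ x y‖ₑ ≤ C₂ := fun y => le_iSup (fun y => ∑' x, ‖f₂ x y‖ₑ) y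
  -- injectivity in each variable
  have inj1 : ∀ q, Function.Injective (fun m : N => el N m q) := fun q m m' h => by
    simpa using congrArg Prod.snd (@el_injective _ _ N _ (q, m) (q, m') h)
  let A₁ : (Γ ⧸ N) → (Γ ⧸ N) → N → ℝ := fun q q' n =>
    (∑' m : N, ‖f₁ (el N n q) (el N m q')‖ₑ).toReal
  let A₂ : (Γ ⧸ N) → (Γ ⧸ N) → N → ℝ := fun q q' m =>
    (∑' n : N, ‖f₂ (el N n q) (el N m q')‖ₑ).toReal
  have hA1' : ∀ q q' n, ∑' m : N, ‖f₁ (el N n q) (el N m q')‖ₑ ≤ C₁ := fun q q' n =>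
    (ENNReal.tsum_comp_le_tsum_of_injective (inj1 q') (fun y => ‖f₁ (el N n q) y‖ₑ)).trans (hb1 _)
  have hA2' : ∀ q q' m, ∑' n : N, ‖f₂ (el N n q) (el N m q')‖ₑ ≤ C₂ := fun q q' m =>
    (ENNReal.tsum_comp_le_tsum_of_injective (inj1 q) (fun x => ‖f₂ x (el N m q')‖ₑ)).trans (hb2 _)
  have hA1nn : ∀ q q' n, 0 ≤ A₁ q q' n := fun q q' n => ENNReal.toReal_nonneg
  have hA2nn : ∀ q q' n, 0 ≤ A₂ q q' n := fun q q' n => ENNReal.toReal_nonneg
  have hA1b : ∀ q q', ∃ C, ∀ x, |A₁ q q' x| ≤ C := fun q q' => ⟨C₁.toReal, fun x => by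
    rw [abs_of_nonneg (hA1nn _ _ _)]
    exact ENNReal.toReal_mono h1.ne (hA1' _ _ _)⟩
  have hA2b : ∀ q q', ∃ C, ∀ x, |A₂ q q' x| ≤ C := fun q q' => ⟨C₂.toReal, fun x => by
    rw [abs_of_nonneg (hA2nn _ _ _)]
    exact ENNReal.toReal_mono h2.ne (hA2' _ _ _)⟩
  let F₁ : (Γ ⧸ N) → (Γ ⧸ N) → ℝ := fun q q' => M.m (A₁ q q')
  let F₂ : (Γ ⧸ N) → (Γ ⧸ N) → ℝ := fun q q' => M.m (A₂ q q')
  have hF1nn : ∀ q q', 0 ≤ F₁ q q' := fun q q' => by
    have := M.mono (fun _ => 0) (A₁ q q') ⟨0, fun x => by simp⟩ (hA1b q q') (hA1nn q q')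
    rwa [M.const] at this
  have hF2nn : ∀ q q', 0 ≤ F₂ q q' := fun q q' => by
    have := M.mono (fun _ => 0) (A₂ q q') ⟨0, fun x => by simp⟩ (hA2b q q') (hA2nn q q')
    rwa [M.const] at this
  -- the two summability bounds
  have hsum1 : ∀ q (s : Finset (Γ ⧸ N)), ∑ q' ∈ s, F₁ q q' ≤ C₁.toReal := by
    intro q s
    rw [← M.sum s (fun q' => A₁ q q') (fun i _ => hA1b q i), ← M.const C₁.toReal]
    refine M.mono _ _ ?_ ⟨|C₁.toReal|, fun x => le_rfl⟩ ?_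
    · choose C hC using hA1b q
      exact ⟨∑ i ∈ s, C i, fun x => (Finset.abs_sum_le_sum_abs _ _).trans
        (Finset.sum_le_sum fun i _ => hC i x)⟩
    · intro n
      have e1 : ∑ q' ∈ s, A₁ q q' n =
          (∑ q' ∈ s, ∑' m : N, ‖f₁ (el N n q) (el N m q')‖ₑ).toReal := by
        rw [ENNReal.toReal_sum]
        exact fun a _ => (lt_of_le_of_lt (hA1' _ _ _) h1).ne
      rw [e1]
      refine ENNReal.toReal_mono h1.ne ?_
      calc ∑ q' ∈ s, ∑' m : N, ‖f₁ (el N n q) (el N m q')‖ₑ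
          ≤ ∑' q' : Γ ⧸ N, ∑' m : N, ‖f₁ (el N n q) (el N m q')‖ₑ := ENNReal.sum_le_tsum _
        _ = ∑' x : (Γ ⧸ N) × N, ‖f₁ (el N n q) (el N x.2 x.1)‖ₑ :=
            (ENNReal.tsum_prod (f := fun q' m => ‖f₁ (el N n q) (el N m q')‖ₑ)).symm
        _ ≤ ∑' y, ‖f₁ (el N n q) y‖ₑ :=
            ENNReal.tsum_comp_le_tsum_of_injective (el_injective N)
              (fun y => ‖f₁ (el N n q) y‖ₑ)
        _ ≤ C₁ := hb1 _
  have hsum2 : ∀ q' (s : Finset (Γ ⧸ N)), ∑ q ∈ s, F₂ q q' ≤ C₂.toReal := by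
    intro q' s
    rw [← M.sum s (fun q => A₂ q q') (fun i _ => hA2b i q'), ← M.const C₂.toReal]
    refine M.mono _ _ ?_ ⟨|C₂.toReal|, fun x => le_rfl⟩ ?_
    · have := fun q => hA2b q q'
      choose C hC using this
      exact ⟨∑ i ∈ s, C i, fun x => (Finset.abs_sum_le_sum_abs _ _).trans
        (Finset.sum_le_sum fun i _ => hC i x)⟩
    · intro m
      have e1 : ∑ q ∈ s, A₂ q q' m =
          (∑ q ∈ s, ∑' n : N, ‖f₂ (el N n q) (el N m q')‖ₑ).toReal := by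
        rw [ENNReal.toReal_sum]
        exact fun a _ => (lt_of_le_of_lt (hA2' _ _ _) h2).ne
      rw [e1]
      refine ENNReal.toReal_mono h2.ne ?_
      calc ∑ q ∈ s, ∑' n : N, ‖f₂ (el N n q) (el N m q')‖ₑ
          ≤ ∑' q : Γ ⧸ N, ∑' n : N, ‖f₂ (el N n q) (el N m q')‖ₑ := ENNReal.sum_le_tsum _
        _ = ∑' x : (Γ ⧸ N) × N, ‖f₂ (el N x.2 x.1) (el N m q')‖ₑ :=
            (ENNReal.tsum_prod (f := fun q n => ‖f₂ (el N n q) (el N m q')‖ₑ)).symm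
        _ ≤ ∑' x, ‖f₂ x (el N m q')‖ₑ :=
            ENNReal.tsum_comp_le_tsum_of_injective (el_injective N)
              (fun x => ‖f₂ x (el N m q')‖ₑ)
        _ ≤ C₂ := hb2 _
  -- the key inequality
  have hkey : ∀ (q q' : Γ ⧸ N) (K : Finset N),
      ∑ k ∈ K, ‖f (q.out⁻¹ * (k : Γ) * q'.out)‖ ≤ F₁ q q' + F₂ q q' := by
    intro q q' K
    let B : N → N → ℝ := fun k n => ‖f₂ (el N n q) (el N (n * k) q')‖
    let ψ : N → N → ℝ := fun k m => ‖f₂ (el N (m * k⁻¹) q) (el N m q')‖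
    have hψb : ∀ k, ∃ C, ∀ x, |ψ k x| ≤ C := fun k => ⟨C₂.toReal, fun x => by
      simp only [ψ, abs_norm]
      have : ‖f₂ (el N (x * k⁻¹) q) (el N x q')‖ₑ ≤ C₂ :=
        (ENNReal.le_tsum (el N (x * k⁻¹) q)).trans (hb2 (el N x q'))
      rw [← toReal_enorm]
      exact ENNReal.toReal_mono h2.ne this⟩
    have hBψ : ∀ k, B k = fun n => ψ k (n * k) := fun k => by
      funext n
      simp only [B, ψ, mul_inv_cancel_right]
    have hBb : ∀ k, ∃ C, ∀ x, |B k x| ≤ C := fun k => by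
      obtain ⟨C, hC⟩ := hψb k
      exact ⟨C, fun x => by rw [hBψ]; exact hC _⟩
    have hBm : ∀ k, M.m (B k) = M.m (ψ k) := fun k => by
      rw [hBψ]
      exact M.trans k (ψ k) (hψb k)
    have hsumB : ∃ C, ∀ x, |∑ k ∈ K, B k x| ≤ C := by
      choose C hC using hBb
      exact ⟨∑ i ∈ K, C i, fun x => (Finset.abs_sum_le_sum_abs _ _).trans
        (Finset.sum_le_sum fun i _ => hC i x)⟩
    have hsumψ : ∃ C, ∀ x, |∑ k ∈ K, ψ k x| ≤ C := by
      choose C hC using hψb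
      exact ⟨∑ i ∈ K, C i, fun x => (Finset.abs_sum_le_sum_abs _ _).trans
        (Finset.sum_le_sum fun i _ => hC i x)⟩
    have step1 : ∀ n : N, ∑ k ∈ K, ‖f (q.out⁻¹ * (k : Γ) * q'.out)‖ ≤
        A₁ q q' n + ∑ k ∈ K, B k n := by
      intro n
      have e1 : ∀ k : N, f (q.out⁻¹ * (k : Γ) * q'.out) =
          f₁ (el N n q) (el N (n * k) q') + f₂ (el N n q) (el N (n * k) q') := by
        intro k
        rw [← hfs]
        congr 1
        simp only [el, Subgroup.coe_mul]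
        group
      have e2 : ∑ k ∈ K, ‖f₁ (el N n q) (el N (n * k) q')‖ ≤ A₁ q q' n := by
        have e3 : ∑ k ∈ K, ‖f₁ (el N n q) (el N (n * k) q')‖ =
            (∑ k ∈ K, ‖f₁ (el N n q) (el N (n * k) q')‖ₑ).toReal := by
          rw [ENNReal.toReal_sum (fun a _ => enorm_ne_top)]
          simp only [toReal_enorm]
        rw [e3]
        refine ENNReal.toReal_mono (lt_of_le_of_lt (hA1' _ _ _) h1).ne ?_
        calc ∑ k ∈ K, ‖f₁ (el N n q) (el N (n * k) q')‖ₑ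
            ≤ ∑' k : N, ‖f₁ (el N n q) (el N (n * k) q')‖ₑ := ENNReal.sum_le_tsum _
          _ ≤ ∑' m : N, ‖f₁ (el N n q) (el N m q')‖ₑ :=
            ENNReal.tsum_comp_le_tsum_of_injective (mul_right_injective n)
              (fun m => ‖f₁ (el N n q) (el N m q')‖ₑ)
      calc ∑ k ∈ K, ‖f (q.out⁻¹ * (k : Γ) * q'.out)‖
          ≤ ∑ k ∈ K, (‖f₁ (el N n q) (el N (n * k) q')‖ + B k n) := by
            refine Finset.sum_le_sum fun k _ => ?_
            rw [e1 k]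
            exact norm_add_le _ _
        _ = ∑ k ∈ K, ‖f₁ (el N n q) (el N (n * k) q')‖ + ∑ k ∈ K, B k n :=
            Finset.sum_add_distrib
        _ ≤ _ := by gcongr
    have step2 : ∑ k ∈ K, ‖f (q.out⁻¹ * (k : Γ) * q'.out)‖ ≤ F₁ q q' + ∑ k ∈ K, M.m (B k) := by
      rw [← M.sum K B (fun k _ => hBb k), ← M.add _ _ (hA1b q q') hsumB]
      conv_lhs => rw [← M.const (∑ k ∈ K, ‖f (q.out⁻¹ * (k : Γ) * q'.out)‖)]
      refine M.mono _ _ ⟨_, fun x => le_rfl⟩ ?_ step1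
      obtain ⟨C, hC⟩ := hA1b q q'
      obtain ⟨D, hD⟩ := hsumB
      exact ⟨C + D, fun x => (abs_add_le _ _).trans (add_le_add (hC x) (hD x))⟩
    have step3 : ∑ k ∈ K, M.m (B k) ≤ F₂ q q' := by
      simp only [hBm]
      rw [← M.sum K ψ (fun k _ => hψb k)]
      refine M.mono _ _ hsumψ (hA2b q q') ?_
      intro m
      have e3 : ∑ k ∈ K, ψ k m =
          (∑ k ∈ K, ‖f₂ (el N (m * k⁻¹) q) (el N m q')‖ₑ).toReal := by
        rw [ENNReal.toReal_sum (fun a _ => enorm_ne_top)]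
        simp only [toReal_enorm, ψ]
      rw [e3]
      refine ENNReal.toReal_mono (lt_of_le_of_lt (hA2' _ _ _) h2).ne ?_
      calc ∑ k ∈ K, ‖f₂ (el N (m * k⁻¹) q) (el N m q')‖ₑ
          ≤ ∑' k : N, ‖f₂ (el N (m * k⁻¹) q) (el N m q')‖ₑ := ENNReal.sum_le_tsum _
        _ ≤ ∑' n : N, ‖f₂ (el N n q) (el N m q')‖ₑ :=
          ENNReal.tsum_comp_le_tsum_of_injective
            ((mul_right_injective m).comp inv_injective)
            (fun n => ‖f₂ (el N n q) (el N m q')‖ₑ)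
    linarith
  have hfib : ∀ q q' : Γ ⧸ N,
      ∑' g : ((fun g : Γ => (g : Γ ⧸ N)) ⁻¹' {q⁻¹ * q'}), ‖f g‖ₑ ≤
        ENNReal.ofReal (F₁ q q' + F₂ q q') := by
    intro q q'
    have e0 : ∑' k : N, ‖f (q.out⁻¹ * (k : Γ) * q'.out)‖ₑ ≤ ENNReal.ofReal (F₁ q q' + F₂ q q') := by
      rw [ENNReal.tsum_eq_iSup_sum]
      refine iSup_le fun K => ?_
      have : ∑ k ∈ K, ‖f (q.out⁻¹ * (k : Γ) * q'.out)‖ₑ =
          ENNReal.ofReal (∑ k ∈ K, ‖f (q.out⁻¹ * (k : Γ) * q'.out)‖) := by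
        rw [ENNReal.ofReal_sum_of_nonneg (fun _ _ => norm_nonneg _)]
        simp only [ofReal_norm]
      rw [this]
      exact ENNReal.ofReal_le_ofReal (hkey q q' K)
    have hmem : ∀ g : ((fun g : Γ => (g : Γ ⧸ N)) ⁻¹' {q⁻¹ * q'}),
        q.out * (g : Γ) * q'.out⁻¹ ∈ N := by
      rintro ⟨g, hg⟩
      rw [← QuotientGroup.eq_one_iff]
      have hg' : (g : Γ ⧸ N) = q⁻¹ * q' := hg
      simp only [QuotientGroup.mk_mul, QuotientGroup.mk_inv, QuotientGroup.out_eq', hg']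
      group
    let φ : ((fun g : Γ => (g : Γ ⧸ N)) ⁻¹' {q⁻¹ * q'}) → N := fun g =>
      ⟨q.out * (g : Γ) * q'.out⁻¹, hmem g⟩
    have hφ : Function.Injective φ := by
      intro g g' h
      have := congrArg Subtype.val h
      simp only [φ, mul_left_inj, mul_right_inj] at this
      exact Subtype.ext this
    refine le_trans ?_ e0
    refine le_trans (le_of_eq ?_) (ENNReal.tsum_comp_le_tsum_of_injective hφ
      (fun k => ‖f (q.out⁻¹ * (k : Γ) * q'.out)‖ₑ))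
    refine tsum_congr fun g => ?_
    congr 2
    simp only [φ]
    group
  set F : Γ ⧸ N → ℝ≥0∞ := fun r =>
    ∑' g : ((fun g : Γ => (g : Γ ⧸ N)) ⁻¹' {r}), ‖f g‖ₑ with hFdef
  have hFfin : ∀ r, F r ≠ ∞ := by
    intro r
    have := hfib 1 r
    rw [inv_one, one_mul] at this
    exact (lt_of_le_of_lt this ENNReal.ofReal_lt_top).ne
  have hFle : ∀ q q', (F (q⁻¹ * q')).toReal ≤ F₁ q q' + F₂ q q' := fun q q' =>
    ENNReal.toReal_le_of_le_ofReal (add_nonneg (hF1nn _ _) (hF2nn _ _)) (hfib q q')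
  refine ⟨hFfin, fun q q' => ((min (F₁ q q') (F (q⁻¹ * q')).toReal : ℝ) : ℂ),
    fun q q' => (((F (q⁻¹ * q')).toReal - min (F₁ q q') (F (q⁻¹ * q')).toReal : ℝ) : ℂ), ?_, ?_, ?_⟩
  · intro q q'
    push_cast
    ring
  · refine lt_of_le_of_lt (iSup_le fun q => ?_) h1
    rw [ENNReal.tsum_eq_iSup_sum]
    refine iSup_le fun s => ?_
    have e1 : ∀ q', ‖((min (F₁ q q') (F (q⁻¹ * q')).toReal : ℝ) : ℂ)‖ₑ ≤
        ENNReal.ofReal (F₁ q q') := by
      intro q'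
      rw [← ofReal_norm, Complex.norm_real, Real.norm_eq_abs,
        abs_of_nonneg (le_min (hF1nn _ _) ENNReal.toReal_nonneg)]
      exact ENNReal.ofReal_le_ofReal (min_le_left _ _)
    calc ∑ q' ∈ s, ‖((min (F₁ q q') (F (q⁻¹ * q')).toReal : ℝ) : ℂ)‖ₑ
        ≤ ∑ q' ∈ s, ENNReal.ofReal (F₁ q q') := Finset.sum_le_sum fun q' _ => e1 q'
      _ = ENNReal.ofReal (∑ q' ∈ s, F₁ q q') :=
          (ENNReal.ofReal_sum_of_nonneg (fun _ _ => hF1nn _ _)).symm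
      _ ≤ ENNReal.ofReal C₁.toReal := ENNReal.ofReal_le_ofReal (hsum1 q s)
      _ = C₁ := ENNReal.ofReal_toReal h1.ne
  · refine lt_of_le_of_lt (iSup_le fun q' => ?_) h2
    rw [ENNReal.tsum_eq_iSup_sum]
    refine iSup_le fun s => ?_
    have e1 : ∀ q, ‖(((F (q⁻¹ * q')).toReal - min (F₁ q q') (F (q⁻¹ * q')).toReal : ℝ) : ℂ)‖ₑ ≤
        ENNReal.ofReal (F₂ q q') := by
      intro q
      rw [← ofReal_norm, Complex.norm_real, Real.norm_eq_abs,
        abs_of_nonneg (sub_nonneg.2 (min_le_right _ _))]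
      refine ENNReal.ofReal_le_ofReal ?_
      rcases le_total (F₁ q q') (F (q⁻¹ * q')).toReal with h | h
      · rw [min_eq_left h]
        linarith [hFle q q']
      · rw [min_eq_right h, sub_self]
        exact hF2nn _ _
    calc ∑ q ∈ s, ‖(((F (q⁻¹ * q')).toReal - min (F₁ q q') (F (q⁻¹ * q')).toReal : ℝ) : ℂ)‖ₑ
        ≤ ∑ q ∈ s, ENNReal.ofReal (F₂ q q') := Finset.sum_le_sum fun q _ => e1 q
      _ = ENNReal.ofReal (∑ q ∈ s, F₂ q q') :=
          (ENNReal.ofReal_sum_of_nonneg (fun _ _ => hF2nn _ _)).symm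
      _ ≤ ENNReal.ofReal C₂.toReal := ENNReal.ofReal_le_ofReal (hsum2 q' s)
      _ = C₂ := ENNReal.ofReal_toReal h2.ne

end Main

section Lp

variable {Γ : Type*} [Group Γ]

theorem memℓp_iff_enorm {ι : Type*} {f : ι → ℂ} {p : ℝ≥0∞} (hp0 : 0 < p) (hp : p < ∞) :
    Memℓp f p ↔ ∑' i, ‖f i‖ₑ ^ p.toReal < ∞ := by
  have hpr : 0 < p.toReal := ENNReal.toReal_pos hp0.ne' hp.ne
  rw [memℓp_gen_iff hpr]
  have e : ∀ i, ‖f i‖ₑ ^ p.toReal = ENNReal.ofReal (‖f i‖ ^ p.toReal) := fun i => by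
    rw [← ofReal_norm, ENNReal.ofReal_rpow_of_nonneg (norm_nonneg _) hpr.le]
  simp only [e]
  constructor
  · intro h
    exact h.tsum_ofReal_lt_top
  · intro h
    have h' := ENNReal.summable_toReal h.ne
    refine h'.congr fun i => ?_
    rw [ENNReal.toReal_ofReal (by positivity)]

/-- `ℓ¹ ⊆ T₁`. -/
theorem mem_T1_of_summable {f : Γ → ℂ} (hf : ∑' g, ‖f g‖ₑ < ∞) : f ∈ T1 Γ := by
  refine ⟨fun x y => f (x⁻¹ * y), fun _ _ => 0, fun x y => by simp, ?_, ?_⟩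
  · refine lt_of_le_of_lt (iSup_le fun x => ?_) hf
    exact ENNReal.tsum_comp_le_tsum_of_injective (mul_right_injective x⁻¹) (fun g => ‖f g‖ₑ)
  · simp

/-- On an infinite group, `T₁ ⊆ ℓᵖ` forces `p ≥ 1`. -/
theorem one_le_of_T1_subset [Infinite Γ] {p : ℝ≥0∞} (hp0 : 0 < p) (hp : p < ∞)
    (h : ∀ f ∈ T1 Γ, Memℓp f p) : 1 ≤ p := by
  classical
  by_contra hlt
  push Not at hlt
  have hpr : 0 < p.toReal := ENNReal.toReal_pos hp0.ne' hp.ne
  have hpr1 : p.toReal < 1 := by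
    have := (ENNReal.toReal_lt_toReal hp.ne ENNReal.one_ne_top).2 hlt
    simpa using this
  let ι : ℕ ↪ Γ := Infinite.natEmbedding Γ
  let a : ℕ → ℝ := fun n => ((n : ℝ) + 1) ^ (-(1 / p.toReal))
  let f : Γ → ℂ := fun g => if h : ∃ n, ι n = g then ((a h.choose : ℝ) : ℂ) else 0
  have hfι : ∀ n, f (ι n) = ((a n : ℝ) : ℂ) := by
    intro n
    have h1 : ∃ m, ι m = ι n := ⟨n, rfl⟩
    simp only [f]
    rw [dif_pos h1]
    have h2 : h1.choose = n := ι.injective h1.choose_spec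
    rw [h2]
  have hf0 : ∀ g, g ∉ Set.range ι → f g = 0 := by
    intro g hg
    simp only [f]
    rw [dif_neg]
    rintro ⟨n, hn⟩
    exact hg ⟨n, hn⟩
  have ha : ∀ n, 0 < a n := fun n => by positivity
  have hsum : Summable a := by
    have h1 : Summable fun n : ℕ => (n : ℝ) ^ (-(1 / p.toReal)) := by
      rw [Real.summable_nat_rpow]
      rw [neg_lt_neg_iff, lt_div_iff₀ hpr]
      linarith
    have h2 := (summable_nat_add_iff 1).2 h1
    refine h2.congr fun n => ?_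
    simp [a]
  have hmem : f ∈ T1 Γ := by
    apply mem_T1_of_summable
    have e1 : ∑' g, ‖f g‖ₑ = ∑' n, ‖f (ι n)‖ₑ := by
      refine (Function.Injective.tsum_eq ι.injective ?_).symm
      intro g hg
      by_contra hg'
      exact hg (by simp [hf0 g hg'])
    rw [e1]
    have e2 : ∀ n, ‖f (ι n)‖ₑ = ENNReal.ofReal (a n) := fun n => by
      rw [hfι, ← ofReal_norm, Complex.norm_real, Real.norm_eq_abs, abs_of_pos (ha n)]
    simp only [e2]
    exact hsum.tsum_ofReal_lt_top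
  have h3 := h f hmem
  rw [memℓp_gen_iff hpr] at h3
  have h4 := h3.comp_injective ι.injective
  have h5 : Summable fun n : ℕ => ((n : ℝ) + 1)⁻¹ := by
    refine h4.congr fun n => ?_
    simp only [Function.comp, hfι, Complex.norm_real, Real.norm_eq_abs, abs_of_pos (ha n), a]
    rw [← Real.rpow_mul (by positivity), neg_mul, one_div, inv_mul_cancel₀ hpr.ne',
      Real.rpow_neg_one]
  have h6 : Summable fun n : ℕ => ((n + 1 : ℕ) : ℝ)⁻¹ := by
    refine h5.congr fun n => by push_cast; rfl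
  exact Real.not_summable_natCast_inv ((summable_nat_add_iff 1).1 h6)

variable (N : Subgroup Γ) [hNn : N.Normal]

/-- Descent: if `T₁(Γ/N) ⊆ ℓᵖ(Γ/N)` and `p ≥ 1`, then `T₁(Γ) ⊆ ℓᵖ(Γ)`. -/
theorem lp_of_quotient (M : Mean N) {p : ℝ≥0∞} (hp1 : 1 ≤ p) (hp : p < ∞)
    (h : ∀ f ∈ T1 (Γ ⧸ N), Memℓp f p) : ∀ f ∈ T1 Γ, Memℓp f p := by
  intro f hf
  obtain ⟨hfin, hmem⟩ := pushforward N M hf
  have hp0 : 0 < p := lt_of_lt_of_le one_pos hp1
  have hpr1 : 1 ≤ p.toReal := by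
    have := ENNReal.toReal_mono hp.ne hp1
    simpa using this
  have h1 := (memℓp_iff_enorm hp0 hp).1 (h _ hmem)
  rw [memℓp_iff_enorm hp0 hp]
  refine lt_of_le_of_lt ?_ h1
  rw [← ENNReal.tsum_fiberwise (fun g : Γ => ‖f g‖ₑ ^ p.toReal) (fun g : Γ => (g : Γ ⧸ N))]
  refine ENNReal.tsum_le_tsum fun r => ?_
  set S := ∑' g : ((fun g : Γ => (g : Γ ⧸ N)) ⁻¹' {r}), ‖f g‖ₑ with hS
  have e1 : ‖((S.toReal : ℝ) : ℂ)‖ₑ = S := by
    rw [← ofReal_norm, Complex.norm_real, Real.norm_eq_abs, abs_of_nonneg ENNReal.toReal_nonneg,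
      ENNReal.ofReal_toReal (hfin r)]
  rw [e1]
  have e2 : ∀ g : ((fun g : Γ => (g : Γ ⧸ N)) ⁻¹' {r}),
      ‖f g‖ₑ ^ p.toReal ≤ ‖f g‖ₑ * S ^ (p.toReal - 1) := by
    intro g
    have hle : ‖f g‖ₑ ≤ S := ENNReal.le_tsum g
    calc ‖f g‖ₑ ^ p.toReal = ‖f g‖ₑ ^ (1 + (p.toReal - 1)) := by ring_nf
      _ = ‖f g‖ₑ ^ (1 : ℝ) * ‖f g‖ₑ ^ (p.toReal - 1) :=
          ENNReal.rpow_add_of_nonneg _ _ zero_le_one (by linarith)
      _ ≤ ‖f g‖ₑ * S ^ (p.toReal - 1) := by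
          rw [ENNReal.rpow_one]
          exact mul_le_mul_right (ENNReal.rpow_le_rpow hle (by linarith)) _
  calc ∑' g : ((fun g : Γ => (g : Γ ⧸ N)) ⁻¹' {r}), ‖f g‖ₑ ^ p.toReal
      ≤ ∑' g : ((fun g : Γ => (g : Γ ⧸ N)) ⁻¹' {r}), ‖f g‖ₑ * S ^ (p.toReal - 1) :=
        ENNReal.tsum_le_tsum e2
    _ = S * S ^ (p.toReal - 1) := by rw [ENNReal.tsum_mul_right]
    _ = S ^ p.toReal := by
        conv_lhs => rw [← ENNReal.rpow_one S]
        rw [← ENNReal.rpow_mul, one_mul, ← ENNReal.rpow_add_of_nonneg _ _ zero_le_one (by linarith)]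
        congr 1
        ring

/-- Lifting along a section: if `T₁(Γ) ⊆ ℓᵖ(Γ)`, then `T₁(Γ/N) ⊆ ℓᵖ(Γ/N)`. -/
theorem lp_quotient {p : ℝ≥0∞} (hp0 : 0 < p) (hp : p < ∞)
    (h : ∀ f ∈ T1 Γ, Memℓp f p) : ∀ f ∈ T1 (Γ ⧸ N), Memℓp f p := by
  classical
  rintro f ⟨f₁, f₂, hfs, h1, h2⟩
  let π : Γ → Γ ⧸ N := fun g => (g : Γ ⧸ N)
  let P : Γ → Prop := fun g => g = (π g).out
  let F : Γ → ℂ := fun g => if P g then f (π g) else 0
  have hF : F ∈ T1 Γ := by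
    refine ⟨fun x y => if P (x⁻¹ * y) then f₁ (π x) (π y) else 0,
      fun x y => if P (x⁻¹ * y) then f₂ (π x) (π y) else 0, ?_, ?_, ?_⟩
    · intro x y
      simp only [F]
      split_ifs with hP
      · rw [← hfs]
        rfl
      · simp
    · refine lt_of_le_of_lt (iSup_le fun x => ?_) h1
      refine le_trans ?_ (le_iSup (fun x => ∑' y, ‖f₁ x y‖ₑ) (π x))
      have e1 : ∑' y, ‖(if P (x⁻¹ * y) then f₁ (π x) (π y) else 0)‖ₑ =
          ∑' y : {y // P (x⁻¹ * y)}, ‖f₁ (π x) (π y)‖ₑ := by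
        refine Eq.trans ?_
          (tsum_subtype {y | P (x⁻¹ * y)} (fun y => ‖f₁ (π x) (π y)‖ₑ)).symm
        refine tsum_congr fun y => ?_
        by_cases hy : P (x⁻¹ * y)
        · rw [Set.indicator_of_mem (show y ∈ {y | P (x⁻¹ * y)} from hy), if_pos hy]
        · rw [Set.indicator_of_notMem (show y ∉ {y | P (x⁻¹ * y)} from hy), if_neg hy, enorm_zero]
      rw [e1]
      have inj : Function.Injective (fun y : {y // P (x⁻¹ * y)} => π y) := by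
        rintro ⟨y, hy⟩ ⟨y', hy'⟩ he
        have he' : π y = π y' := he
        have e2 : π (x⁻¹ * y) = π (x⁻¹ * y') := by
          simp only [π, QuotientGroup.mk_mul] at he' ⊢
          rw [he']
        have e3 : x⁻¹ * y = x⁻¹ * y' := by
          have a1 : x⁻¹ * y = (π (x⁻¹ * y)).out := hy
          have a2 : x⁻¹ * y' = (π (x⁻¹ * y')).out := hy'
          rw [a1, a2, e2]
        exact Subtype.ext (mul_left_cancel e3)
      exact ENNReal.tsum_comp_le_tsum_of_injective inj (fun r => ‖f₁ (π x) r‖ₑ)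
    · refine lt_of_le_of_lt (iSup_le fun y => ?_) h2
      refine le_trans ?_ (le_iSup (fun y => ∑' x, ‖f₂ x y‖ₑ) (π y))
      have e1 : ∑' x, ‖(if P (x⁻¹ * y) then f₂ (π x) (π y) else 0)‖ₑ =
          ∑' x : {x // P (x⁻¹ * y)}, ‖f₂ (π x) (π y)‖ₑ := by
        refine Eq.trans ?_
          (tsum_subtype {x | P (x⁻¹ * y)} (fun x => ‖f₂ (π x) (π y)‖ₑ)).symm
        refine tsum_congr fun x => ?_
        by_cases hx : P (x⁻¹ * y)
        · rw [Set.indicator_of_mem (show x ∈ {x | P (x⁻¹ * y)} from hx), if_pos hx]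
        · rw [Set.indicator_of_notMem (show x ∉ {x | P (x⁻¹ * y)} from hx), if_neg hx, enorm_zero]
      rw [e1]
      have inj : Function.Injective (fun x : {x // P (x⁻¹ * y)} => π x) := by
        rintro ⟨x, hx⟩ ⟨x', hx'⟩ he
        have he' : π x = π x' := he
        have e2 : π (x⁻¹ * y) = π (x'⁻¹ * y) := by
          simp only [π, QuotientGroup.mk_mul, QuotientGroup.mk_inv] at he' ⊢
          rw [he']
        have e3 : x⁻¹ * y = x'⁻¹ * y := by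
          have a1 : x⁻¹ * y = (π (x⁻¹ * y)).out := hx
          have a2 : x'⁻¹ * y = (π (x'⁻¹ * y)).out := hx'
          rw [a1, a2, e2]
        exact Subtype.ext (inv_injective (mul_right_cancel e3))
      exact ENNReal.tsum_comp_le_tsum_of_injective inj (fun r => ‖f₂ r (π y)‖ₑ)
  have h3 := h F hF
  rw [memℓp_iff_enorm hp0 hp] at h3 ⊢
  refine lt_of_le_of_lt ?_ h3
  have hout : Function.Injective (Quotient.out : Γ ⧸ N → Γ) := Quotient.out_injective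
  refine le_trans (le_of_eq ?_)
    (ENNReal.tsum_comp_le_tsum_of_injective hout (fun g => ‖F g‖ₑ ^ p.toReal))
  refine tsum_congr fun r => ?_
  have e4 : π r.out = r := QuotientGroup.out_eq' r
  have e5 : P r.out := by
    change r.out = (π r.out).out
    rw [e4]
  simp only [F]
  rw [if_pos e5, e4]

end Lp

/-- Let `N` be an amenable normal subgroup of a group `Γ` such that `Γ/N` is infinite. Then
`Γ` and `Γ/N` have the same Littlewood exponent. -/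
theorem result (Γ : Type*) [Group Γ] (N : Subgroup Γ) [N.Normal] (hN : IsAmenable N)
    [Infinite (Γ ⧸ N)] : Lit Γ = Lit (Γ ⧸ N) := by
  obtain ⟨M⟩ := exists_mean hN
  unfold Lit
  congr 1
  ext p
  constructor
  · rintro ⟨hp0, hp, h⟩
    exact ⟨hp0, hp, lp_quotient N hp0 hp h⟩
  · rintro ⟨hp0, hp, h⟩
    exact ⟨hp0, hp, lp_of_quotient N M (one_le_of_T1_subset hp0 hp h) hp h⟩

end Pool.Agent.H74.BTL.AQ
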