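import Pool.Agent.H74.BTL.Targets

/-!
# Finite subgroups are bounded, no elements of infinite order
-/

set_option autoImplicit false

open scoped ENNReal RealInnerProductSpace

universe u

namespace Pool.Agent.H74.BTL

theorem pf_BND (h1 : T_RKS.{u}) (h2 : T_LWA.{u}) (h3 : T_LWB.{u}) (h4 : T_UPP.{u}) (h5 : T_RNT.{u})
    (h6 : T_DMB.{u}) (h7 : T_BDF.{u}) (h8 : T_ORT.{u}) : T_BND.{u} := by
  classical
  intro G _ I _ s h dh hL hG hs hH hdh hne
  have hEt : Inv (Et dh) := (h8 G I s h dh hdh).2.2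
  have hmem : dh ∈ Et dh := by
    refine Submodule.subset_span ⟨1, ?_⟩
    exact lt_one dh
  have hbot : Et dh ≠ ⊥ := by
    intro hb
    rw [hb] at hmem
    exact hne ((Submodule.mem_bot ℝ).1 hmem)
  have hδ : 0 < dm (Et dh) := (h6 G I).2.2.1 _ hEt hbot
  set δ := dm (Et dh) with hδd
  set ε : ℝ := δ / (2 * (Fintype.card I + 1)) with hε
  have hIpos : (0 : ℝ) ≤ Fintype.card I := Nat.cast_nonneg _
  have hε0 : 0 < ε := by positivity
  have hεI : Fintype.card I * ε < δ := by
    rw [hε, ← mul_div_assoc, div_lt_iff₀ (by positivity)]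
    nlinarith
  obtain ⟨n₀, hn₀⟩ := h1 G hL ε hε0
  have hpin : ∀ (A : Type) (g : G) (v : L2 (G × (I ⊕ A))), pin A (lt g v) = lt g (pin A v) := by
    intro A g v
    ext ⟨x, i⟩
    rfl
  -- the common part
  have hcore : ∀ (A : Type) [Fintype A] (a : A → G) (L : Subgroup G),
      Subgroup.closure (Set.range a) = L → (¬ Finite L ∨ n₀ < Nat.card L) →
      (Fintype.card A : ℝ) - 1 ≤ dm ((Cf (Sum.elim s a)).topologicalClosure ⊓ kr (pin A)) →
      False := by
    intro A _ a L haL hLn hA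
    have e1 := h3 G I A s a L ε haL hε0 (fun i => hn₀ L hLn (s i))
    have e2 := h5 G (I ⊕ A) I (pin A) (Cf (Sum.elim s a)) (hpin A) (h7 G (I ⊕ A) _).2.1
    have e3 := h4 G I A s a h dh hG hs hH hdh
    rw [← hδd] at e3
    nlinarith
  refine ⟨n₀, fun L hLL => ?_⟩
  by_contra hcon
  have hLn : ¬ Finite L ∨ n₀ < Nat.card L := by
    by_contra h9
    push Not at h9
    exact hcon h9
  by_cases hf : Finite L
  · let e := Finite.equivFin L
    let a : Fin (Nat.card L) → G := fun i => (e.symm i : G)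
    have ha : ∀ y, y ∈ L ↔ ∃ α, a α = y := by
      intro y
      constructor
      · intro hy
        exact ⟨e ⟨y, hy⟩, by simp [a]⟩
      · rintro ⟨α, rfl⟩
        exact (e.symm α).2
    refine hcore (Fin (Nat.card L)) a L ?_ hLn (h2 G I (Fin (Nat.card L)) s a L hf ha)
    apply le_antisymm
    · rw [Subgroup.closure_le]
      rintro _ ⟨α, rfl⟩
      exact (ha _).2 ⟨α, rfl⟩
    · intro y hy
      obtain ⟨α, rfl⟩ := (ha y).1 hy
      exact Subgroup.subset_closure ⟨α, rfl⟩
  · rcases hLL with h9 | ⟨a, rfl⟩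
    · exact hf h9
    · refine hcore Unit (fun _ => a) (Subgroup.zpowers a) ?_ hLn ?_
      · rw [Set.range_const, Subgroup.zpowers_eq_closure]
      · simp only [Fintype.card_unit, Nat.cast_one, sub_self]
        exact ((h6 G (I ⊕ Unit)).2.1 _).1

end Pool.Agent.H74.BTL
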