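import Pool.Agent.H74.BTL.LWB

/-!
# Almost invariant sets
-/

set_option autoImplicit false

open scoped ENNReal RealInnerProductSpace
open Filter Topology

universe u

namespace Pool.Agent.H74.BTL

open Classical in
lemma FOL.lev {G : Type u} [Group G] (S : Finset G) (ε : ℝ) (n : ℕ) :
    ∀ (X : Finset G) (F : G → ℝ), X.card ≤ n → (∀ x ∈ X, 0 < F x) → (∀ x, x ∉ X → F x = 0) →
    ∑ s ∈ S, ∑ x ∈ X, max (F x - F (x * s)) 0 < ε * ∑ x ∈ X, F x →
    ∃ X' : Finset G, X'.Nonempty ∧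
      ∑ s ∈ S, ((X'.filter fun x => x * s ∉ X').card : ℝ) ≤ ε * X'.card := by
  induction n with
  | zero =>
    intro X F hX hF hF0 hlt
    have hX0 : X = ∅ := Finset.card_eq_zero.1 (by omega)
    subst hX0
    simp at hlt
  | succ n ih =>
    intro X F hX hF hF0 hlt
    have hne : X.Nonempty := by
      rw [Finset.nonempty_iff_ne_empty]
      intro h0
      subst h0
      simp at hlt
    obtain ⟨x₀, hx₀, hmin⟩ := X.exists_min_image F hne
    set m := F x₀ with hm
    have hm0 : 0 < m := hF x₀ hx₀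
    by_cases hgood : ∑ s ∈ S, ((X.filter fun x => x * s ∉ X).card : ℝ) ≤ ε * X.card
    · exact ⟨X, hne, hgood⟩
    push Not at hgood
    let F' : G → ℝ := fun x => if x ∈ X then F x - m else 0
    let X' : Finset G := X.filter fun x => m < F x
    have hF'1 : ∀ x ∈ X', 0 < F' x := by
      intro x hx
      obtain ⟨h1, h2⟩ := Finset.mem_filter.1 hx
      simp only [F', if_pos h1]
      linarith
    have hF'2 : ∀ x, x ∉ X' → F' x = 0 := by
      intro x hx
      by_cases h1 : x ∈ X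
      · simp only [F', if_pos h1]
        have h2 : ¬ m < F x := fun h => hx (Finset.mem_filter.2 ⟨h1, h⟩)
        have h3 := hmin x h1
        linarith
      · simp only [F', if_neg h1]
    have hF'0 : ∀ x, 0 ≤ F' x := by
      intro x
      by_cases h1 : x ∈ X'
      · exact (hF'1 x h1).le
      · rw [hF'2 x h1]
    have hstep : ∀ s, ∑ x ∈ X, max (F x - F (x * s)) 0 =
        m * ((X.filter fun x => x * s ∉ X).card : ℝ) + ∑ x ∈ X, max (F' x - F' (x * s)) 0 := by
      intro s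
      rw [Finset.card_filter]
      push_cast
      rw [Finset.mul_sum, ← Finset.sum_add_distrib]
      refine Finset.sum_congr rfl fun x hx => ?_
      by_cases h1 : x * s ∈ X
      · simp only [F', if_pos hx, if_pos h1]
        rw [if_neg (not_not.2 h1)]
        simp
      · simp only [F', if_pos hx, if_neg h1]
        rw [if_pos h1, hF0 _ h1]
        have h2 := hF x hx
        have h3 := hmin x hx
        rw [max_eq_left (by linarith), max_eq_left (by linarith)]
        ring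
    have hsumF' : ∑ x ∈ X, F' x = ∑ x ∈ X, F x - m * X.card := by
      have h1 : ∑ x ∈ X, F' x = ∑ x ∈ X, (F x - m) :=
        Finset.sum_congr rfl fun x hx => by simp only [F', if_pos hx]
      rw [h1, Finset.sum_sub_distrib, Finset.sum_const, nsmul_eq_mul]
      ring
    have hkey : ∑ s ∈ S, ∑ x ∈ X, max (F' x - F' (x * s)) 0 < ε * ∑ x ∈ X, F' x := by
      have h1 : ∑ s ∈ S, ∑ x ∈ X, max (F x - F (x * s)) 0 =
          m * ∑ s ∈ S, ((X.filter fun x => x * s ∉ X).card : ℝ) +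
            ∑ s ∈ S, ∑ x ∈ X, max (F' x - F' (x * s)) 0 := by
        rw [Finset.mul_sum, ← Finset.sum_add_distrib]
        exact Finset.sum_congr rfl fun s _ => hstep s
      rw [hsumF']
      nlinarith
    have hX'sub : X' ⊆ X := Finset.filter_subset _ _
    have hX'card : X'.card ≤ n := by
      have h1 : X' ⊂ X := by
        refine Finset.ssubset_iff_subset_ne.2 ⟨hX'sub, fun h => ?_⟩
        have h2 : x₀ ∈ X' := by rw [h]; exact hx₀
        exact absurd (Finset.mem_filter.1 h2).2 (lt_irrefl _)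
      have := Finset.card_lt_card h1
      omega
    have hsum1 : ∑ x ∈ X', F' x = ∑ x ∈ X, F' x :=
      Finset.sum_subset hX'sub fun x _ hx => hF'2 x hx
    have hsum2 : ∀ s, ∑ x ∈ X', max (F' x - F' (x * s)) 0 = ∑ x ∈ X, max (F' x - F' (x * s)) 0 := by
      intro s
      refine Finset.sum_subset hX'sub fun x _ hx => ?_
      rw [hF'2 x hx, max_eq_right]
      have := hF'0 (x * s)
      linarith
    refine ih X' F' hX'card hF'1 hF'2 ?_
    rw [hsum1]
    refine lt_of_eq_of_lt ?_ hkey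
    exact Finset.sum_congr rfl fun s _ => hsum2 s

theorem pf_FOL : T_FOL.{u} := by
  classical
  intro G _ hNA S ε hε
  set lam : ℝ := ε / (4 * (S.card + 1)) with hlam
  have hlam0 : 0 < lam := by positivity
  have hlamS : 4 * lam * S.card < ε := by
    rw [hlam]
    have h1 : 4 * (ε / (4 * (S.card + 1))) * (S.card : ℝ) = ε * (S.card / (S.card + 1)) := by
      field_simp
    rw [h1]
    have h2 : (S.card : ℝ) / (S.card + 1) < 1 := by
      rw [div_lt_one (by positivity)]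
      linarith
    nlinarith
  set κ : ℝ := ε * lam with hκ
  have hκ0 : 0 < κ := by positivity
  obtain ⟨f₀, hf₀⟩ : ∃ f : L2 G, ∑ s ∈ S, ‖rt s f - f‖ ^ 2 < κ * ‖f‖ ^ 2 := by
    by_contra hcon
    push Not at hcon
    exact hNA ⟨S, fun s _ => Subgroup.mem_top s, κ, hκ0, hcon⟩
  -- density
  obtain ⟨f, hfsp, hf⟩ : ∃ f : L2 G, f ∈ Submodule.span ℝ (Set.range (dl : G → L2 G)) ∧
      ∑ s ∈ S, ‖rt s f - f‖ ^ 2 < κ * ‖f‖ ^ 2 := by
    have hopen : IsOpen {f : L2 G | ∑ s ∈ S, ‖rt s f - f‖ ^ 2 < κ * ‖f‖ ^ 2} := by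
      refine isOpen_lt ?_ (continuous_const.mul (continuous_norm.pow 2))
      exact continuous_finset_sum _ fun s _ =>
        (((rt s : L2 G →L[ℝ] L2 G).continuous.sub continuous_id).norm.pow 2)
    have hcl : f₀ ∈ closure ((Submodule.span ℝ (Set.range (dl : G → L2 G)) : Submodule ℝ (L2 G)) :
        Set (L2 G)) := by
      have hs := lp.hasSum_single (E := fun _ : G => ℝ) (p := 2) (by norm_num) f₀
      refine mem_closure_of_tendsto hs (Eventually.of_forall fun T => ?_)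
      refine Submodule.sum_mem _ fun x _ => ?_
      have h1 : lp.single 2 x (f₀ x) = f₀ x • (dl x : L2 G) := by
        ext y
        rw [lp.coeFn_smul, Pi.smul_apply, smul_eq_mul, dl_apply]
        by_cases hy : y = x
        · subst hy
          rw [lp.single_apply_self, if_pos rfl, mul_one]
        · rw [lp.single_apply_ne _ _ _ hy, if_neg hy, mul_zero]
      rw [h1]
      exact Submodule.smul_mem _ _ (Submodule.subset_span ⟨x, rfl⟩)
    obtain ⟨f, h1, h2⟩ := mem_closure_iff.1 hcl _ hopen hf₀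
    exact ⟨f, h2, h1⟩
  have hfin := LWB.fs f hfsp
  set X := hfin.toFinset with hX
  have hXm : ∀ x, x ∉ X → f x = 0 := by
    intro x hx
    by_contra h
    exact hx (hfin.mem_toFinset.2 h)
  have hnorm : ‖f‖ ^ 2 = ∑ x ∈ X, f x ^ 2 := by
    rw [norm_sq_eq, tsum_eq_sum]
    intro x hx
    rw [hXm x hx]
    norm_num
  have hbound : ∀ s, ∑ x ∈ X, max (f x ^ 2 - f (x * s) ^ 2) 0 ≤
      (‖rt s f - f‖ ^ 2 / lam + 4 * lam * ‖f‖ ^ 2) / 2 := by
    intro s
    have h1 : ∀ x, max (f x ^ 2 - f (x * s) ^ 2) 0 ≤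
        ((rt s f - f : L2 G) x ^ 2 / lam + lam * (rt s f + f : L2 G) x ^ 2) / 2 := by
      intro x
      rw [lp.coeFn_sub, lp.coeFn_add, Pi.sub_apply, Pi.add_apply, rt_apply]
      have h2 : 0 ≤ ((f (x * s) - f x) + lam * (f (x * s) + f x)) ^ 2 / lam := by positivity
      have h3 : ((f (x * s) - f x) + lam * (f (x * s) + f x)) ^ 2 / lam =
          (f (x * s) - f x) ^ 2 / lam + lam * (f (x * s) + f x) ^ 2 +
            2 * (f (x * s) ^ 2 - f x ^ 2) := by
        field_simp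
        ring
      rw [max_le_iff]
      constructor
      · rw [h3] at h2
        linarith
      · positivity
    have h4 : ∑ x ∈ X, (rt s f - f : L2 G) x ^ 2 ≤ ‖rt s f - f‖ ^ 2 := by
      rw [norm_sq_eq]
      exact (summable_sq _).sum_le_tsum X fun x _ => sq_nonneg _
    have h5 : ∑ x ∈ X, (rt s f + f : L2 G) x ^ 2 ≤ ‖rt s f + f‖ ^ 2 := by
      rw [norm_sq_eq]
      exact (summable_sq _).sum_le_tsum X fun x _ => sq_nonneg _
    have h6 : ‖rt s f + f‖ ^ 2 ≤ 4 * ‖f‖ ^ 2 := by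
      have h7 : ‖rt s f + f‖ ≤ 2 * ‖f‖ := by
        refine (norm_add_le _ _).trans ?_
        rw [norm_rt]
        linarith
      have h8 := norm_nonneg (rt s f + f)
      nlinarith
    calc ∑ x ∈ X, max (f x ^ 2 - f (x * s) ^ 2) 0
        ≤ ∑ x ∈ X, ((rt s f - f : L2 G) x ^ 2 / lam + lam * (rt s f + f : L2 G) x ^ 2) / 2 :=
          Finset.sum_le_sum fun x _ => h1 x
      _ = ((∑ x ∈ X, (rt s f - f : L2 G) x ^ 2) / lam +
          lam * ∑ x ∈ X, (rt s f + f : L2 G) x ^ 2) / 2 := by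
          rw [← Finset.sum_div, Finset.sum_add_distrib, ← Finset.sum_div, ← Finset.mul_sum]
      _ ≤ (‖rt s f - f‖ ^ 2 / lam + lam * (4 * ‖f‖ ^ 2)) / 2 := by
          gcongr
          exact h5.trans h6
      _ = _ := by ring
  have hfpos : 0 < ‖f‖ ^ 2 := by
    have h1 : 0 ≤ ∑ s ∈ S, ‖rt s f - f‖ ^ 2 := Finset.sum_nonneg fun s _ => sq_nonneg _
    exact (pos_iff_pos_of_mul_pos (lt_of_le_of_lt h1 hf)).1 hκ0
  have htot : ∑ s ∈ S, ∑ x ∈ X, max (f x ^ 2 - f (x * s) ^ 2) 0 < ε * ∑ x ∈ X, f x ^ 2 := by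
    rw [← hnorm]
    have h1 : ∑ s ∈ S, ∑ x ∈ X, max (f x ^ 2 - f (x * s) ^ 2) 0 ≤
        ∑ s ∈ S, (‖rt s f - f‖ ^ 2 / lam + 4 * lam * ‖f‖ ^ 2) / 2 :=
      Finset.sum_le_sum fun s _ => hbound s
    have h2 : ∑ s ∈ S, (‖rt s f - f‖ ^ 2 / lam + 4 * lam * ‖f‖ ^ 2) / 2 =
        ((∑ s ∈ S, ‖rt s f - f‖ ^ 2) / lam + S.card * (4 * lam * ‖f‖ ^ 2)) / 2 := by
      rw [← Finset.sum_div, Finset.sum_add_distrib, ← Finset.sum_div, Finset.sum_const,
        nsmul_eq_mul]
    have h3 : (∑ s ∈ S, ‖rt s f - f‖ ^ 2) / lam < ε * ‖f‖ ^ 2 := by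
      rw [div_lt_iff₀ hlam0]
      calc ∑ s ∈ S, ‖rt s f - f‖ ^ 2 < κ * ‖f‖ ^ 2 := hf
        _ = ε * ‖f‖ ^ 2 * lam := by rw [hκ]; ring
    have h4 : (S.card : ℝ) * (4 * lam * ‖f‖ ^ 2) < ε * ‖f‖ ^ 2 := by
      calc (S.card : ℝ) * (4 * lam * ‖f‖ ^ 2) = (4 * lam * S.card) * ‖f‖ ^ 2 := by ring
        _ < ε * ‖f‖ ^ 2 := mul_lt_mul_of_pos_right hlamS hfpos
    linarith
  obtain ⟨X', hX'ne, hX'⟩ := FOL.lev S ε X.card X (fun x => f x ^ 2) le_rfl (fun x hx => by
      have h1 : f x ≠ 0 := hfin.mem_toFinset.1 hx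
      positivity) (fun x hx => by
      change f x ^ 2 = 0
      rw [hXm x hx]
      norm_num) htot
  refine ⟨X', hX'ne, fun s hs => ?_⟩
  exact (Finset.single_le_sum (f := fun s => ((X'.filter fun x => x * s ∉ X').card : ℝ))
    (fun s _ => Nat.cast_nonneg _) hs).trans hX'

end Pool.Agent.H74.BTL
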