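import Pool.Agent.H74.BTL.Targets

/-!
# The harmonic correction
-/

set_option autoImplicit false

open scoped ENNReal RealInnerProductSpace

universe u

namespace Pool.Agent.H74.BTL

theorem pf_HAR : T_HAR.{u} := by
  classical
  intro G _ K J _ _ t r h hK ht hr0 hr1 hC hb
  have hFK : Fintype K := Fintype.ofFinite K
  choose ξ hξ using hb
  have hKpos : (0 : ℝ) < Fintype.card K := by exact_mod_cast Fintype.card_pos
  have hJpos : (0 : ℝ) < Fintype.card J := by exact_mod_cast Fintype.card_pos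
  set κ : ℝ := (Fintype.card K : ℝ)⁻¹ with hκ
  set ι : ℝ := (Fintype.card J : ℝ)⁻¹ with hι
  -- the mean over `K`
  let ζ₀ : L2 G := -(κ • ∑ k : K, ξ (k : G))
  have hζ₀ : ∀ x, h x - ζ₀ x = κ * ∑ k : K, h (x * k) := by
    intro x
    have e1 : ζ₀ x = -(κ * ∑ k : K, (h (x * k) - h x)) := by
      simp only [ζ₀, lp.coeFn_neg, lp.coeFn_smul, Pi.neg_apply, Pi.smul_apply, lp.coeFn_sum,
        Finset.sum_apply, hξ, smul_eq_mul]
    rw [e1, Finset.sum_sub_distrib, Finset.sum_const, Finset.card_univ, nsmul_eq_mul, mul_sub,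
      ← mul_assoc κ (Fintype.card K : ℝ), hκ, inv_mul_cancel₀ hKpos.ne']
    ring
  have hinv : ∀ (k : K) x, h (x * k) - ζ₀ (x * k) = h x - ζ₀ x := by
    intro k x
    rw [hζ₀, hζ₀]
    congr 1
    refine Fintype.sum_equiv (Equiv.mulLeft k) _ _ fun y => ?_
    simp [mul_assoc]
  -- conjugation
  have hconj : ∀ (j : J) (k : K), ∃ k' : K, (k : G) * t j = t j * k' := by
    intro j k
    have h1 := (Subgroup.mem_normalizer_iff'.1 (ht j) ((t j)⁻¹ * k)).1
    refine ⟨⟨(t j)⁻¹ * k * t j, ?_⟩, by simp [mul_assoc]⟩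
    have h2 := (Subgroup.mem_normalizer_iff.1 (ht j) ((t j)⁻¹ * k * t j)).2
    refine h2 ?_
    have : t j * ((t j)⁻¹ * k * t j) * (t j)⁻¹ = (k : G) := by group
    rw [this]
    exact k.2
  -- the mean operator
  let M : L2 G →L[ℝ] L2 G := ι • ∑ j, rt (t j)
  have hMn : ‖M‖ ≤ r := by
    refine ContinuousLinearMap.opNorm_le_bound _ hr0 fun f => ?_
    have e1 : M f = ι • ∑ j, rt (t j) f := by
      simp only [M, smul_apply, sum_apply]
    rw [e1, norm_smul, Real.norm_eq_abs, abs_of_pos (inv_pos.2 hJpos)]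
    have h2 := hC f
    calc ι * ‖∑ j, rt (t j) f‖ ≤ ι * (r * Fintype.card J * ‖f‖) :=
          mul_le_mul_of_nonneg_left h2 (inv_pos.2 hJpos).le
      _ = r * ‖f‖ * (ι * Fintype.card J) := by ring
      _ = r * ‖f‖ := by rw [hι, inv_mul_cancel₀ hJpos.ne', mul_one]
  have hMlt : ‖M‖ < 1 := lt_of_le_of_lt hMn hr1
  have hMap : ∀ f : L2 G, M f = ι • ∑ j, rt (t j) f := by
    intro f
    simp only [M, smul_apply, sum_apply]
  -- uniqueness
  have huniq : ∀ f : L2 G, f = M f → f = 0 := by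
    intro f hf
    by_contra hne
    have h1 : ‖f‖ ≤ ‖M‖ * ‖f‖ := by
      conv_lhs => rw [hf]
      exact M.le_opNorm f
    have h2 : 0 < ‖f‖ := norm_pos_iff.2 hne
    nlinarith
  -- the defect
  let η : L2 G := ι • ∑ j, (ξ (t j) - (rt (t j) ζ₀ - ζ₀))
  have hη : ∀ x, η x = ι * ∑ j, ((h (x * t j) - ζ₀ (x * t j)) - (h x - ζ₀ x)) := by
    intro x
    simp only [η, lp.coeFn_smul, Pi.smul_apply, lp.coeFn_sum, Finset.sum_apply, lp.coeFn_sub,
      Pi.sub_apply, hξ, rt_apply, smul_eq_mul]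
    congr 1
    exact Finset.sum_congr rfl fun j _ => by ring
  have hηK : ∀ k : K, rt (k : G) η = η := by
    intro k
    ext x
    rw [rt_apply, hη, hη]
    congr 1
    refine Finset.sum_congr rfl fun j _ => ?_
    obtain ⟨k', hk'⟩ := hconj j k
    rw [mul_assoc x, hk', ← mul_assoc x, hinv k' (x * t j), hinv k x]
  -- solve the equation
  obtain ⟨ζ₁, hζ₁⟩ : ∃ ζ₁ : L2 G, ζ₁ - M ζ₁ = -η := by
    have hu : IsUnit (1 - M) := isUnit_one_sub_of_norm_lt_one hMlt
    obtain ⟨v, hv⟩ := hu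
    refine ⟨(↑(v⁻¹) : L2 G →L[ℝ] L2 G) (-η), ?_⟩
    have h1 : (1 - M) ((↑(v⁻¹) : L2 G →L[ℝ] L2 G) (-η)) = -η := by
      rw [← hv]
      have h2 : ((v : L2 G →L[ℝ] L2 G) * ↑(v⁻¹)) (-η) = -η := by
        rw [Units.mul_inv]
        rfl
      exact h2
    exact h1
  -- invariance
  let Q : L2 G →L[ℝ] L2 G := κ • ∑ k : K, rt (k : G)
  have hQap : ∀ f : L2 G, Q f = κ • ∑ k : K, rt (k : G) f := by
    intro f
    simp only [Q, smul_apply, sum_apply]
  have hQrt : ∀ (j : J) (f : L2 G), Q (rt (t j) f) = rt (t j) (Q f) := by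
    intro j f
    rw [hQap, hQap, map_smul, map_sum]
    congr 1
    choose φ hφ using hconj j
    have hbij : Function.Bijective φ := by
      have hinj : Function.Injective φ := by
        intro a b hab
        have h1 := hφ a
        rw [hab, ← hφ b] at h1
        exact Subtype.ext (mul_right_cancel h1)
      exact Finite.injective_iff_bijective.1 hinj
    refine Fintype.sum_bijective φ hbij _ _ fun k => ?_
    rw [← rt_mul, ← rt_mul, hφ k]
  have hQM : ∀ f : L2 G, Q (M f) = M (Q f) := by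
    intro f
    rw [hMap, hMap, map_smul, map_sum]
    congr 1
    exact Finset.sum_congr rfl fun j _ => hQrt j f
  have hQη : Q η = η := by
    rw [hQap]
    simp only [hηK, Finset.sum_const, Finset.card_univ]
    rw [← Nat.cast_smul_eq_nsmul ℝ, smul_smul, hκ, inv_mul_cancel₀ hKpos.ne', one_smul]
  have hQζ : Q ζ₁ = ζ₁ := by
    have h1 : Q ζ₁ - M (Q ζ₁) = -η := by
      rw [← hQM, ← map_sub, hζ₁, map_neg, hQη]
    have h2 : Q ζ₁ - ζ₁ = 0 := by
      refine huniq _ ?_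
      rw [map_sub]
      have h3 : M (Q ζ₁) = Q ζ₁ + η := by
        have h5 : Q ζ₁ = -η + M (Q ζ₁) := sub_eq_iff_eq_add.1 h1
        have h6 : Q ζ₁ + η = (-η + M (Q ζ₁)) + η := by rw [← h5]
        rw [h6]
        abel
      have h4 : M ζ₁ = ζ₁ + η := by
        have h5 : ζ₁ = -η + M ζ₁ := sub_eq_iff_eq_add.1 hζ₁
        have h6 : ζ₁ + η = (-η + M ζ₁) + η := by rw [← h5]
        rw [h6]
        abel
      rw [h3, h4]
      abel
    exact sub_eq_zero.1 h2
  have hζK : ∀ k : K, rt (k : G) ζ₁ = ζ₁ := by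
    intro k
    conv_lhs => rw [← hQζ, hQap, map_smul, map_sum]
    conv_rhs => rw [← hQζ, hQap]
    congr 1
    refine Fintype.sum_equiv (Equiv.mulLeft k) _ _ fun y => ?_
    rw [← rt_mul]
    rfl
  refine ⟨ζ₀ + ζ₁, fun k hk x => ?_, fun x => ?_⟩
  · have h1 := hinv ⟨k, hk⟩ x
    have h2 : ζ₁ (x * k) = ζ₁ x := by
      have h3 := hζK ⟨k, hk⟩
      have h4 := congrArg (fun f : L2 G => (f : G → ℝ) x) h3
      exact h4
    rw [lp.coeFn_add, Pi.add_apply, Pi.add_apply, h2]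
    have h1' : h (x * k) - ζ₀ (x * k) = h x - ζ₀ x := h1
    linarith
  · have h1 := congrArg (fun f : L2 G => (f : G → ℝ) x) hζ₁
    simp only [lp.coeFn_sub, lp.coeFn_neg, Pi.sub_apply, Pi.neg_apply, hMap, lp.coeFn_smul,
      Pi.smul_apply, lp.coeFn_sum, Finset.sum_apply, rt_apply, smul_eq_mul, hη] at h1
    rw [lp.coeFn_add]
    simp only [Pi.add_apply]
    have h2 : ∑ j, ((h (x * t j) - (ζ₀ (x * t j) + ζ₁ (x * t j))) - (h x - (ζ₀ x + ζ₁ x))) =
        (∑ j, ((h (x * t j) - ζ₀ (x * t j)) - (h x - ζ₀ x))) -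
          ((∑ j, ζ₁ (x * t j)) - Fintype.card J * ζ₁ x) := by
      have h3 : (Fintype.card J : ℝ) * ζ₁ x = ∑ _j : J, ζ₁ x := by
        rw [Finset.sum_const, Finset.card_univ, nsmul_eq_mul]
      rw [h3, ← Finset.sum_sub_distrib, ← Finset.sum_sub_distrib]
      exact Finset.sum_congr rfl fun j _ => by ring
    rw [h2]
    have h4 : ι * Fintype.card J = 1 := by rw [hι, inv_mul_cancel₀ hJpos.ne']
    have h5 : ζ₁ x = ι * (Fintype.card J * ζ₁ x) := by rw [← mul_assoc, h4, one_mul]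
    have h6 : ι * ((∑ j, ((h (x * t j) - ζ₀ (x * t j)) - (h x - ζ₀ x))) -
        ((∑ j, ζ₁ (x * t j)) - Fintype.card J * ζ₁ x)) = 0 := by
      rw [mul_sub, mul_sub, ← h5]
      linarith
    rcases mul_eq_zero.1 h6 with h7 | h7
    · exact absurd h7 (inv_pos.2 hJpos).ne'
    · exact h7

end Pool.Agent.H74.BTL
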