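import Pool.Agent.H74.BTL.Targets

/-!
# Hitting probabilities of cosets of amenable subgroups
-/

set_option autoImplicit false

open scoped ENNReal RealInnerProductSpace

universe u

namespace Pool.Agent.H74.BTL

lemma HIT.mean {G : Type u} [Group G] {J : Type} [Fintype J] [Nonempty J] (t : J → G) (r : ℝ)
    (hr : 0 ≤ r) (hC : Ctr t r) (f : L2 G) (l : ℕ) :
    ‖EE l (fun w : List J => rt (pr t w) f)‖ ≤ r ^ l * ‖f‖ := by
  induction l with
  | zero =>
    rw [EE_zero, pr_nil, rt_one, pow_zero, one_mul]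
  | succ l ih =>
    have hJpos : (0 : ℝ) < Fintype.card J := by exact_mod_cast Fintype.card_pos
    have e1 : EE (l + 1) (fun w : List J => rt (pr t w) f) =
        (Fintype.card J : ℝ)⁻¹ • ∑ j, rt (t j) (EE l (fun w : List J => rt (pr t w) f)) := by
      rw [EE_succ]
      congr 1
      refine Finset.sum_congr rfl fun j _ => ?_
      have e2 := EE_map l ((rt (t j) : L2 G →L[ℝ] L2 G) : L2 G →ₗ[ℝ] L2 G)
        (fun w : List J => rt (pr t w) f)
      simp only [ContinuousLinearMap.coe_coe] at e2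
      rw [← e2]
      exact EE_congr l fun w _ => by rw [pr_cons, rt_mul]
    rw [e1, norm_smul, Real.norm_eq_abs, abs_of_pos (inv_pos.2 hJpos)]
    calc (Fintype.card J : ℝ)⁻¹ * ‖∑ j, rt (t j) (EE l (fun w : List J => rt (pr t w) f))‖
        ≤ (Fintype.card J : ℝ)⁻¹ * (r * Fintype.card J *
          ‖EE l (fun w : List J => rt (pr t w) f)‖) :=
          mul_le_mul_of_nonneg_left (hC _) (inv_pos.2 hJpos).le
      _ = r * ‖EE l (fun w : List J => rt (pr t w) f)‖ := by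
          field_simp
      _ ≤ r * (r ^ l * ‖f‖) := mul_le_mul_of_nonneg_left ih hr
      _ = r ^ (l + 1) * ‖f‖ := by ring

theorem pf_HIT : T_HIT.{u} := by
  classical
  intro G _ V J _ _ t r hr0 hr1 hC hV g l
  have hfinW := List.finite_length_eq J l
  set C : Finset G := (hfinW.toFinset.image fun w => g⁻¹ * pr t w).filter (· ∈ V) with hCd
  set P := EE l (fun w : List J => ind (g⁻¹ * pr t w ∈ V)) with hP
  have hP1 : P ≤ 1 := by
    have h1 := EE_mono l (f := fun w : List J => ind (g⁻¹ * pr t w ∈ V)) (g := fun _ => 1)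
      (fun w _ => ind_le_one _)
    rwa [EE_const] at h1
  have hP0 : 0 ≤ P := EE_nonneg l fun w _ => ind_nonneg _
  refine le_of_forall_pos_le_add fun κ hκ => ?_
  -- almost invariant vectors
  obtain ⟨f₀, hf₀⟩ : ∃ f : L2 G, ∑ s ∈ C, ‖rt s f - f‖ ^ 2 < κ * ‖f‖ ^ 2 := by
    by_contra hcon
    push Not at hcon
    exact hV ⟨C, fun s hs => (Finset.mem_filter.1 hs).2, κ, hκ, hcon⟩
  let f : L2 G := ⟨fun x => |f₀ x|, memL2 ((summable_sq f₀).congr fun x => by rw [sq_abs])⟩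
  have hfx : ∀ x, f x = |f₀ x| := fun x => rfl
  have hfn : ‖f‖ ^ 2 = ‖f₀‖ ^ 2 := by
    rw [norm_sq_eq, norm_sq_eq]
    exact tsum_congr fun x => by rw [hfx, sq_abs]
  have hfC : ∀ c ∈ C, ‖rt c f - f‖ ^ 2 ≤ κ * ‖f‖ ^ 2 := by
    intro c hc
    have h1 : ‖rt c f - f‖ ^ 2 ≤ ‖rt c f₀ - f₀‖ ^ 2 := by
      rw [norm_sq_eq, norm_sq_eq]
      refine (summable_sq _).tsum_le_tsum (fun x => ?_) (summable_sq _)
      rw [lp.coeFn_sub, lp.coeFn_sub, Pi.sub_apply, Pi.sub_apply, rt_apply, rt_apply, hfx, hfx]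
      rw [sq_le_sq]
      exact abs_abs_sub_abs_le _ _
    have h2 : ‖rt c f₀ - f₀‖ ^ 2 ≤ ∑ s ∈ C, ‖rt s f₀ - f₀‖ ^ 2 :=
      Finset.single_le_sum (f := fun s => ‖rt s f₀ - f₀‖ ^ 2) (fun s _ => sq_nonneg _) hc
    rw [hfn]
    linarith
  have hfpos : 0 < ‖f‖ ^ 2 := by
    rw [hfn]
    have h1 : 0 ≤ ∑ s ∈ C, ‖rt s f₀ - f₀‖ ^ 2 := Finset.sum_nonneg fun s _ => sq_nonneg _
    have h2 : 0 < κ * ‖f₀‖ ^ 2 := lt_of_le_of_lt h1 hf₀
    exact (pos_iff_pos_of_mul_pos h2).1 hκ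
  -- lower bound for the inner products
  have hlow : ∀ w : List J, w.length = l → ind (g⁻¹ * pr t w ∈ V) * ((1 - κ / 2) * ‖f‖ ^ 2) ≤
      ⟪rt g f, rt (pr t w) f⟫ := by
    intro w hw
    by_cases hmem : g⁻¹ * pr t w ∈ V
    · rw [ind_true hmem, one_mul]
      have h1 : rt (pr t w) f = rt g (rt (g⁻¹ * pr t w) f) := by
        rw [← rt_mul, mul_inv_cancel_left]
      rw [h1, inner_rt]
      have h2 := hfC (g⁻¹ * pr t w) (by
        rw [hCd, Finset.mem_filter, Finset.mem_image]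
        exact ⟨⟨w, by rw [Set.Finite.mem_toFinset]; exact hw, rfl⟩, hmem⟩)
      have h3 := @norm_sub_sq_real _ _ _ (rt (g⁻¹ * pr t w) f) f
      rw [norm_rt, real_inner_comm] at h3
      linarith
    · rw [ind_false hmem, zero_mul, inner_eq]
      refine tsum_nonneg fun x => ?_
      rw [rt_apply, rt_apply, hfx, hfx]
      positivity
  have h4 := EE_mono l hlow
  have h5 : EE l (fun w : List J => ind (g⁻¹ * pr t w ∈ V) * ((1 - κ / 2) * ‖f‖ ^ 2)) =
      P * ((1 - κ / 2) * ‖f‖ ^ 2) := by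
    have h6 := EE_smul l ((1 - κ / 2) * ‖f‖ ^ 2) (fun w : List J => ind (g⁻¹ * pr t w ∈ V))
    simp only [smul_eq_mul] at h6
    rw [mul_comm P, ← h6]
    exact EE_congr l fun w _ => mul_comm _ _
  have h7 : EE l (fun w : List J => (⟪rt g f, rt (pr t w) f⟫ : ℝ)) =
      ⟪rt g f, EE l (fun w : List J => rt (pr t w) f)⟫ := by
    have h8 := EE_map l ((innerSL ℝ (rt g f) : L2 G →L[ℝ] ℝ) : L2 G →ₗ[ℝ] ℝ)
      (fun w : List J => rt (pr t w) f)
    simpa only [ContinuousLinearMap.coe_coe, innerSL_apply_apply] using h8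
  rw [h5, h7] at h4
  have h9 : ⟪rt g f, EE l (fun w : List J => rt (pr t w) f)⟫ ≤ r ^ l * ‖f‖ ^ 2 := by
    refine (real_inner_le_norm _ _).trans ?_
    rw [norm_rt]
    have h10 := HIT.mean t r hr0 hC f l
    nlinarith [norm_nonneg f]
  have h11 : P * (1 - κ / 2) ≤ r ^ l := by
    have h12 : P * (1 - κ / 2) * ‖f‖ ^ 2 ≤ r ^ l * ‖f‖ ^ 2 := by
      rw [mul_assoc]
      exact h4.trans h9
    exact le_of_mul_le_mul_right h12 hfpos
  nlinarith

end Pool.Agent.H74.BTL
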