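import Pool.Agent.H74.BTL.Targets

/-!
# The theorem for infinite finitely generated groups
-/

set_option autoImplicit false

open scoped ENNReal RealInnerProductSpace

universe u

namespace Pool.Agent.H74.BTL

theorem pf_INF (h1 : T_BND.{u}) (h2 : T_NNG.{u}) (h3 : T_KMX.{u}) (h4 : T_GAP.{u}) (h5 : T_HAR.{u})
    (h6 : T_CMP.{u}) (h7 : T_DEC.{u}) (h8 : T_CRA.{u}) (h9 : T_UIN.{u}) (h10 : T_LQ2.{u}) :
    T_INF.{u} := by
  classical
  intro G _ I _ s h dh hL hG hs hH hdh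
  by_contra hne
  obtain ⟨n₀, hn₀⟩ := h1 G I s h dh hL hG hs hH hdh hne
  have htor : ∀ g : G, g ^ n₀.factorial = 1 := by
    intro g
    obtain ⟨hf, hc⟩ := hn₀ (Subgroup.zpowers g) (Or.inr ⟨g, rfl⟩)
    rw [Nat.card_zpowers] at hc
    have hfo : IsOfFinOrder g := by
      rw [← finite_zpowers]
      exact Set.toFinite _
    exact orderOf_dvd_iff_pow_eq_one.1 (Nat.dvd_factorial hfo.orderOf_pos hc)
  have hNA := h2 G I s h dh hG hs hH hdh hne
  obtain ⟨K, hKf, hKN, hKmax⟩ := h3 G n₀ hNA (fun L hL => (hn₀ L (Or.inl hL)).2)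
  obtain ⟨N, t, r, hN, ht, hr0, hr1, hC⟩ := h4 G _ hKN
  have hFN : Nonempty (Fin N) := ⟨⟨0, hN⟩⟩
  have hξ0 := h6 G I s h hs (fun i => ⟨cm ⟨fun x : G => (x, i), fun x y hxy =>
    (Prod.mk.inj hxy).1⟩ dh, fun x => hdh x i⟩)
  choose ξ hξ using hξ0
  obtain ⟨ζ, hζK, hζM⟩ := h5 G K (Fin N) t r h hKf ht hr0 hr1 hC (fun g => ⟨ξ g, hξ g⟩)
  let b : G → L2 G := fun g => ξ g - (rt g ζ - ζ)
  have hb : ∀ g x, b g x = (h (x * g) - ζ (x * g)) - (h x - ζ x) := by
    intro g x
    simp only [b, lp.coeFn_sub, Pi.sub_apply, hξ, rt_apply]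
    ring
  have hcoc : ∀ g k, b (g * k) = b g + rt g (b k) := by
    intro g k
    ext x
    rw [lp.coeFn_add, Pi.add_apply, rt_apply, hb, hb, hb, mul_assoc]
    ring
  have hbK : ∀ g ∈ Subgroup.normalizer (K : Set G), ∀ k ∈ K, rt k (b g) = b g := by
    intro g hg k hk
    ext x
    rw [rt_apply, hb, hb, hζK k hk x]
    have h11 : g⁻¹ * k * g ∈ K := by
      have h12 := (Subgroup.mem_normalizer_iff.1 hg (g⁻¹ * k * g)).2
      refine h12 ?_
      have : g * (g⁻¹ * k * g) * g⁻¹ = k := by group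
      rw [this]
      exact hk
    have h13 : x * k * g = x * g * (g⁻¹ * k * g) := by group
    rw [h13, hζK _ h11]
  have hsum : ∑ j, b (t j) = 0 := by
    ext x
    rw [lp.coeFn_sum, Finset.sum_apply, lp.coeFn_zero, Pi.zero_apply, ← hζM x]
    exact Finset.sum_congr rfl fun j _ => hb _ x
  have hb0 := h7 G K (Fin N) t r n₀.factorial
    ⟨hKf, ht, hr0, hr1, hC, Nat.factorial_pos _, htor, hKmax⟩ b hcoc hbK hsum
  have hinv : ∀ l ∈ Subgroup.closure (Set.range t), ∀ x, h (x * l) - ζ (x * l) = h x - ζ x := by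
    intro l hl
    induction hl using Subgroup.closure_induction with
    | mem l hl =>
      obtain ⟨j, rfl⟩ := hl
      intro x
      have h11 := hb (t j) x
      rw [hb0 j, lp.coeFn_zero, Pi.zero_apply] at h11
      linarith
    | one => intro x; rw [mul_one]
    | mul k l _ _ hk hl => intro x; rw [← mul_assoc, hl, hk]
    | inv l _ hl => intro x; rw [← hl (x * l⁻¹), inv_mul_cancel_right]
  have hbs : ∀ i, b (s i) = 0 := fun i =>
    h8 G hL (Subgroup.closure (Set.range t)) (h9 G (Fin N) t r hr1 hC) (fun x => h x - ζ x)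
      (fun x l hl => hinv l hl x) (s i) (b (s i)) (fun x => hb (s i) x)
  have hs1 : ∀ x i, h (x * s i) - ζ (x * s i) = h x - ζ x := by
    intro x i
    have h11 := hb (s i) x
    rw [hbs i, lp.coeFn_zero, Pi.zero_apply] at h11
    linarith
  have hs2 : ∀ x i, h (x * (s i)⁻¹) - ζ (x * (s i)⁻¹) = h x - ζ x := by
    intro x i
    rw [← hs1 (x * (s i)⁻¹) i, inv_mul_cancel_right]
  have hHζ : Har s (fun x => ζ x) := by
    intro x
    have h11 := hH x
    rw [← h11]
    refine Finset.sum_congr rfl fun i _ => ?_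
    have h12 := hs1 x i
    have h13 := hs2 x i
    linarith
  have hfin := h10 G I s ζ hHζ
  apply hne
  ext ⟨x, i⟩
  rw [hdh, lp.coeFn_zero, Pi.zero_apply]
  have h12 := hs1 x i
  have h13 := hfin x i
  linarith

end Pool.Agent.H74.BTL
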