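import Pool.Agent.H74.BTL.Targets

/-!
# Restrictions of flows to the old edges
-/

set_option autoImplicit false

open scoped ENNReal RealInnerProductSpace

universe u

namespace Pool.Agent.H74.BTL

lemma LWB.fs {α : Type*} (v : L2 α) (hv : v ∈ Submodule.span ℝ (Set.range (dl : α → L2 α))) :
    (Function.support (v : α → ℝ)).Finite := by
  induction hv using Submodule.span_induction with
  | mem x hx =>
    obtain ⟨y, rfl⟩ := hx
    refine (Set.finite_singleton y).subset fun z hz => ?_
    by_contra h
    exact hz (dl_ne h)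
  | zero =>
    rw [lp.coeFn_zero, Function.support_zero]
    exact Set.finite_empty
  | add x y _ _ hx hy =>
    refine (hx.union hy).subset ?_
    rw [lp.coeFn_add]
    exact Function.support_add _ _
  | smul c x _ hx =>
    refine hx.subset ?_
    rw [lp.coeFn_smul]
    exact Function.support_const_smul_subset _ _

theorem pf_LWB (h1 : T_BDY.{u}) (h2 : T_TRI.{u}) (h3 : T_BDF.{u}) (h4 : T_EQA.{u}) :
    T_LWB.{u} := by
  classical
  intro G _ I A _ _ s a L ε hL hε hB
  set W := mp (pin A) (Cf (Sum.elim s a)) with hW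
  have hWinv : Inv W := by
    intro g v hv
    obtain ⟨w, hw, rfl⟩ := mem_mp.1 hv
    refine mem_mp.2 ⟨lt g w, (h3 G (I ⊕ A) (Sum.elim s a)).2.1 g w hw, ?_⟩
    ext ⟨x, i⟩
    rfl
  have key : ∀ i, 1 - ε ≤ ‖PR W (dl ((1 : G), i))‖ ^ 2 := by
    intro i
    obtain ⟨B, hBne, hrk⟩ := hB i
    let Λ : (B → ℝ) →ₗ[ℝ] ((G ⧸ L) →₀ ℝ) := Fintype.linearCombination ℝ
      (fun g : B => vL L (s i) g)
    have hrange : LinearMap.range Λ = Submodule.span ℝ (vL L (s i) '' (B : Set G)) := by
      rw [Fintype.range_linearCombination]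
      congr 1
      ext v
      constructor
      · rintro ⟨g, rfl⟩
        exact ⟨g, g.2, rfl⟩
      · rintro ⟨g, hg, rfl⟩
        exact ⟨⟨g, hg⟩, rfl⟩
    have hker : (Module.finrank ℝ (LinearMap.ker Λ) : ℝ) = B.card - rk L (s i) B := by
      have h := LinearMap.finrank_range_add_finrank_ker Λ
      rw [hrange, Module.finrank_fintype_fun_eq_card, Fintype.card_coe] at h
      unfold rk
      rw [← h]
      push_cast
      ring
    let Ψ : (B → ℝ) →ₗ[ℝ] L2 (G × I) := Fintype.linearCombination ℝ
      (fun g : B => (dl ((g : G), i) : L2 (G × I)))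
    have hΨ : Function.Injective Ψ := by
      have h5 : LinearIndependent ℝ (fun g : B => (dl ((g : G), i) : L2 (G × I))) := by
        refine (orthonormal_dl (α := G × I)).linearIndependent.comp (fun g : B => ((g : G), i)) ?_
        intro x y hxy
        exact Subtype.ext (Prod.mk.inj hxy).1
      exact linearIndependent_iff_injective_fintypeLinearCombination.1 h5
    have hfin : Module.finrank ℝ ((LinearMap.ker Λ).map Ψ) = Module.finrank ℝ (LinearMap.ker Λ) :=
      (Submodule.equivMapOfInjective Ψ hΨ (LinearMap.ker Λ)).finrank_eq.symm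
    have hle1 : (LinearMap.ker Λ).map Ψ ≤ W := by
      rintro _ ⟨c, hc, rfl⟩
      have hc : Λ c = 0 := hc
      let f : G →₀ ℝ := ∑ g : B, c g • (Finsupp.single ((g : G) * s i) 1 - Finsupp.single (g : G) 1)
      have hf : Finsupp.mapDomain (fun x : G => (x : G ⧸ L)) f = 0 := by
        have h5 : Finsupp.lmapDomain ℝ ℝ (fun x : G => (x : G ⧸ L)) f = Λ c := by
          simp only [f, Λ, map_sum, map_smul, map_sub, Fintype.linearCombination_apply,
            Finsupp.lmapDomain_apply, Finsupp.mapDomain_single, vL]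
        rw [hc] at h5
        exact h5
      obtain ⟨b, hb⟩ := h1 G A a L hL (-f) (by
        rw [show -f = (-1 : ℝ) • f by simp, Finsupp.mapDomain_smul, hf, smul_zero])
      let w : L2 (G × (I ⊕ A)) := (∑ g : B, c g • dl ((g : G), Sum.inl i)) +
        b.sum fun p r => r • dl (p.1, Sum.inr p.2)
      have hw1 : (Function.support (w : G × (I ⊕ A) → ℝ)).Finite := by
        apply LWB.fs
        refine Submodule.add_mem _ (Submodule.sum_mem _ fun g _ => Submodule.smul_mem _ _
          (Submodule.subset_span ⟨_, rfl⟩)) ?_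
        exact Submodule.sum_mem _ fun p _ => Submodule.smul_mem _ _
          (Submodule.subset_span ⟨_, rfl⟩)
      let Jm : (G →₀ ℝ) →ₗ[ℝ] L2 (G × Unit) := Finsupp.linearCombination ℝ fun x => dl (x, ())
      have hJ : ∀ x r, Jm (Finsupp.single x r) = r • dl (x, ()) := fun x r =>
        Finsupp.linearCombination_single ℝ r x
      have hbd : ∀ (x : G) (j : I ⊕ A), bd (Sum.elim s a) (dl (x, j)) =
          dl (x * Sum.elim s a j, ()) - dl (x, ()) := (h3 G (I ⊕ A) (Sum.elim s a)).2.2.2.1
      have hw2 : bd (Sum.elim s a) w = 0 := by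
        have e1 : bd (Sum.elim s a) (∑ g : B, c g • dl ((g : G), Sum.inl i)) = Jm f := by
          simp only [f, map_sum, map_smul, map_sub, hJ, hbd, Sum.elim_inl, one_smul]
        have e2 : bd (Sum.elim s a) (b.sum fun p r => r • dl (p.1, Sum.inr p.2)) = Jm (-f) := by
          rw [hb]
          simp only [Finsupp.sum, map_sum, map_smul, map_sub, hJ, hbd, Sum.elim_inr, smul_sub]
        change bd (Sum.elim s a) (_ + _) = 0
        rw [map_add, e1, e2, ← map_add, add_neg_cancel, map_zero]
      refine mem_mp.2 ⟨w, ⟨hw1, hw2⟩, ?_⟩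
      have e3 : ∀ (x : G), pin A (dl (x, Sum.inl i) : L2 (G × (I ⊕ A))) = dl (x, i) := by
        intro x
        ext ⟨y, j⟩
        rw [pin_apply, dl_apply, dl_apply]
        simp only [Prod.mk.injEq, Sum.inl.injEq]
      have e4 : ∀ (x : G) (α : A), pin A (dl (x, Sum.inr α) : L2 (G × (I ⊕ A))) = 0 := by
        intro x α
        ext ⟨y, j⟩
        rw [pin_apply, dl_apply]
        simp
      change pin A (_ + _) = _
      rw [map_add, map_sum]
      simp only [Finsupp.sum, map_sum, map_smul, e3, e4, smul_zero, Finset.sum_const_zero,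
        add_zero]
      rw [Fintype.linearCombination_apply]
    have hle2 : (LinearMap.ker Λ).map Ψ ≤ Submodule.span ℝ
        ((dl : G × I → L2 (G × I)) '' ((B.image fun g => (g, i) : Finset (G × I)) :
          Set (G × I))) := by
      rintro _ ⟨c, -, rfl⟩
      rw [Fintype.linearCombination_apply]
      refine Submodule.sum_mem _ fun g _ => Submodule.smul_mem _ _ (Submodule.subset_span ?_)
      exact ⟨((g : G), i), by simp, rfl⟩
    have hT := h2 (L2 (G × I)) (G × I) dl (B.image fun g => (g, i)) W ((LinearMap.ker Λ).map Ψ)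
      orthonormal_dl (hle1.trans (Submodule.le_topologicalClosure _)) hle2
    rw [hfin, hker, Finset.sum_image (fun x _ y _ h => (Prod.mk.inj h).1)] at hT
    have h6 : ∑ x ∈ B, ‖PR W (dl (x, i))‖ ^ 2 = B.card * ‖PR W (dl ((1 : G), i))‖ ^ 2 := by
      rw [Finset.sum_congr rfl fun x _ => by
        rw [((h4 G I I).2.2 W hWinv).2.2.2 x i], Finset.sum_const, nsmul_eq_mul]
    rw [h6] at hT
    have hBpos : (0 : ℝ) < B.card := by exact_mod_cast hBne.card_pos
    nlinarith
  have h7 : (Fintype.card I : ℝ) * (1 - ε) = ∑ _i : I, (1 - ε) := by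
    rw [Finset.sum_const, Finset.card_univ, nsmul_eq_mul]
  rw [h7]
  exact Finset.sum_le_sum fun i _ => key i

end Pool.Agent.H74.BTL
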