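import Pool.Agent.H74.BTL.Targets

/-!
# The main theorem
-/

set_option autoImplicit false

open scoped ENNReal RealInnerProductSpace

universe u

namespace Pool.Agent.H74.BTL

theorem pf_MAIN (h1 : T_INF.{u}) (h2 : T_LSB.{u}) (h3 : T_LQ2.{u}) : T_MAIN.{u} := by
  classical
  intro G _ hL S hS h hsum hharm g s₀ hs₀
  let Hs := Subgroup.closure (S : Set G)
  let e := S.equivFin
  let t : Fin S.card → Hs := fun i =>
    ⟨(e.symm i : G), Subgroup.subset_closure (e.symm i).2⟩
  have ht : Subgroup.closure (Set.range t) = ⊤ := by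
    have h4 : Set.range t = ((↑) : Hs → G) ⁻¹' (S : Set G) := by
      ext y
      constructor
      · rintro ⟨i, rfl⟩
        exact (e.symm i).2
      · intro hy
        refine ⟨e ⟨(y : G), hy⟩, ?_⟩
        apply Subtype.ext
        simp [t]
    rw [h4]
    exact Subgroup.closure_closure_coe_preimage
  have hsumS : ∀ F : G → ℝ, ∑ i, F (t i) = ∑ s ∈ S, F s := by
    intro F
    rw [← Finset.sum_coe_sort S F]
    exact Fintype.sum_equiv e.symm _ _ fun i => rfl
  let k : Hs → ℝ := fun y => h (g * y)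
  have hHar : Har t k := by
    intro y
    have h5 : ∑ i, (k (y * t i) + k (y * (t i)⁻¹) - 2 * k y) =
        ∑ s ∈ S, (h (g * y * s) + h (g * y * s⁻¹) - 2 * h (g * y)) := by
      rw [← hsumS (fun s => h (g * y * s) + h (g * y * s⁻¹) - 2 * h (g * y))]
      refine Finset.sum_congr rfl fun i _ => ?_
      simp only [k, Subgroup.coe_mul, Subgroup.coe_inv, mul_assoc]
    have h6 : ∑ s ∈ S, (h (g * y * s⁻¹) - h (g * y)) = ∑ s ∈ S, (h (g * y * s) - h (g * y)) := by
      refine Finset.sum_nbij' (fun s => s⁻¹) (fun s => s⁻¹) (fun s hs => hS s hs)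
        (fun s hs => hS s hs) (fun s _ => inv_inv s) (fun s _ => inv_inv s) fun s _ => rfl
    rw [h5]
    have h7 : ∑ s ∈ S, (h (g * y * s) + h (g * y * s⁻¹) - 2 * h (g * y)) =
        ∑ s ∈ S, (h (g * y * s) - h (g * y)) + ∑ s ∈ S, (h (g * y * s⁻¹) - h (g * y)) := by
      rw [← Finset.sum_add_distrib]
      exact Finset.sum_congr rfl fun s _ => by ring
    rw [h7, h6, hharm, add_zero]
  have hd : Summable fun p : Hs × Fin S.card => (k (p.1 * t p.2) - k p.1) ^ 2 := by
    have hinj : Function.Injective (fun p : Hs × Fin S.card => ((g * p.1 : G), e.symm p.2)) := by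
      rintro ⟨x, i⟩ ⟨y, j⟩ hxy
      rw [Prod.mk.injEq] at hxy
      exact Prod.ext (Subtype.ext (mul_left_cancel hxy.1)) (e.symm.injective hxy.2)
    have h8 := hsum.comp_injective hinj
    refine h8.congr fun p => ?_
    simp only [Function.comp, k, t, Subgroup.coe_mul, mul_assoc]
  let dk : L2 (Hs × Fin S.card) := ⟨fun p => k (p.1 * t p.2) - k p.1, memL2 hd⟩
  have key : ∀ i, k (1 * t i) = k 1 := by
    intro i
    by_cases hf : Finite Hs
    · let ζ : L2 Hs := ⟨k, memL2 (Summable.of_finite)⟩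
      exact h3 Hs (Fin S.card) t ζ hHar 1 i
    · have hf' : Infinite Hs := not_finite_iff_infinite.1 hf
      have h9 := h1 Hs (Fin S.card) t k dk (h2 G Hs hL) hf' ht hHar (fun x i => rfl)
      have h10 : dk (1, i) = 0 := by
        rw [h9, lp.coeFn_zero, Pi.zero_apply]
      have h11 : k (1 * t i) - k 1 = 0 := h10
      linarith
  have h12 := key (e ⟨s₀, hs₀⟩)
  simpa [k, t] using h12

end Pool.Agent.H74.BTL
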