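import Pool.Agent.H1.BTL.CRA
import Pool.Agent.H1.BTL.GRD
import Pool.Agent.H1.BTL.LIT
import Pool.Agent.H1.BTL.RNK
import Pool.Agent.H11.BTL.LEF
import Pool.Agent.H11.BTL.UIN
import Pool.Agent.H13.BTL.GAP
import Pool.Agent.H13.BTL.LWA
import Pool.Agent.H13.BTL.ZDM
import Pool.Agent.H15.BTL.ADD
import Pool.Agent.H15.BTL.CMP
import Pool.Agent.H15.BTL.LQ2
import Pool.Agent.H15.BTL.NNG
import Pool.Agent.H15.BTL.OVL
import Pool.Agent.H15.BTL.WSS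
import Pool.Agent.H36.BTL.BDY
import Pool.Agent.H36.BTL.CCL
import Pool.Agent.H36.BTL.CUT
import Pool.Agent.H36.BTL.GEO
import Pool.Agent.H36.BTL.VAR
import Pool.Agent.H38.BTL.COR
import Pool.Agent.H38.BTL.LSB
import Pool.Agent.H40.BTL.INJ
import Pool.Agent.H40.BTL.KMX
import Pool.Agent.H40.BTL.TOR
import Pool.Agent.H40.BTL.UPP
import Pool.Agent.H60.BTL.AMB
import Pool.Agent.H60.BTL.DMB
import Pool.Agent.H60.BTL.LFT
import Pool.Agent.H60.BTL.POW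
import Pool.Agent.H60.BTL.RNT
import Pool.Agent.H61.BTL.CRS
import Pool.Agent.H68.BTL.RKS
import Pool.Agent.H68.BTL.TRI
import Pool.Agent.H74.BTL.BND
import Pool.Agent.H74.BTL.FOL
import Pool.Agent.H74.BTL.HAR
import Pool.Agent.H74.BTL.HIT
import Pool.Agent.H74.BTL.INF
import Pool.Agent.H74.BTL.LWB
import Pool.Agent.H74.BTL.MAIN
import Pool.Agent.H79.BTL.DEC
import Pool.Agent.H80.BTL.PRB
import Pool.Agent.H89.BTL.TRC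
import Pool.Agent.H93.BTL.BDF
import Pool.Agent.H93.BTL.EQA
import Pool.Agent.H93.BTL.MEA
import Pool.Agent.H93.BTL.ORT
import Pool.Agent.H95.BTL.DEN

/-!
# Finite Littlewood exponent implies vanishing first L2-Betti numbers: assembly
-/

set_option autoImplicit false

universe u

namespace Pool.Agent.H74.BTL

theorem a_LEF : T_LEF.{u} := Pool.Agent.H11.BTL.pf_LEF

theorem a_LFT : T_LFT.{u} := Pool.Agent.H60.BTL.pf_LFT a_LEF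

theorem a_GRD : T_GRD.{u} := Pool.Agent.H1.BTL.pf_GRD

theorem a_DEN : T_DEN.{u} := Pool.Agent.H95.BTL.pf_DEN a_LFT a_GRD

theorem a_LIT : T_LIT.{u} := Pool.Agent.H1.BTL.pf_LIT

theorem a_RKS : T_RKS.{u} := Pool.Agent.H68.BTL.pf_RKS a_DEN a_LIT

theorem a_TRC : T_TRC.{u} := Pool.Agent.H89.BTL.pf_TRC

theorem a_EQA : T_EQA.{u} := Pool.Agent.H93.BTL.pf_EQA

theorem a_POW : T_POW.{u} := Pool.Agent.H60.BTL.pf_POW a_TRC a_EQA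

theorem a_MEA : T_MEA.{u} := Pool.Agent.H93.BTL.pf_MEA

theorem a_RNK : T_RNK.{u} := Pool.Agent.H1.BTL.pf_RNK a_POW a_MEA

theorem a_BDF : T_BDF.{u} := Pool.Agent.H93.BTL.pf_BDF

theorem a_DMB : T_DMB.{u} := Pool.Agent.H60.BTL.pf_DMB

theorem a_ZDM : T_ZDM.{u} := Pool.Agent.H13.BTL.pf_ZDM a_RNK a_BDF a_DMB

theorem a_RNT : T_RNT.{u} := Pool.Agent.H60.BTL.pf_RNT a_RNK a_EQA a_DMB

theorem a_LWA : T_LWA.{u} := Pool.Agent.H13.BTL.pf_LWA a_ZDM a_RNT a_BDF a_DMB a_EQA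

theorem a_BDY : T_BDY.{u} := Pool.Agent.H36.BTL.pf_BDY

theorem a_TRI : T_TRI.{u} := Pool.Agent.H68.BTL.pf_TRI

theorem a_LWB : T_LWB.{u} := Pool.Agent.H74.BTL.pf_LWB a_BDY a_TRI a_BDF a_EQA

theorem a_ADD : T_ADD.{u} := Pool.Agent.H15.BTL.pf_ADD a_RNT a_EQA a_DMB

theorem a_ORT : T_ORT.{u} := Pool.Agent.H93.BTL.pf_ORT

theorem a_CMP : T_CMP.{u} := Pool.Agent.H15.BTL.pf_CMP

theorem a_UPP : T_UPP.{u} := Pool.Agent.H40.BTL.pf_UPP a_ADD a_RNT a_ZDM a_ORT a_CMP a_BDF a_DMB a_EQA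

theorem a_BND : T_BND.{u} := Pool.Agent.H74.BTL.pf_BND a_RKS a_LWA a_LWB a_UPP a_RNT a_DMB a_BDF a_ORT

theorem a_FOL : T_FOL.{u} := Pool.Agent.H74.BTL.pf_FOL

theorem a_AMB : T_AMB.{u} := Pool.Agent.H60.BTL.pf_AMB a_TRI a_BDF a_EQA

theorem a_NNG : T_NNG.{u} := Pool.Agent.H15.BTL.pf_NNG a_FOL a_AMB a_ZDM a_ORT a_DMB a_BDF

theorem a_KMX : T_KMX.{u} := Pool.Agent.H40.BTL.pf_KMX

theorem a_GAP : T_GAP.{u} := Pool.Agent.H13.BTL.pf_GAP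

theorem a_HAR : T_HAR.{u} := Pool.Agent.H74.BTL.pf_HAR

theorem a_HIT : T_HIT.{u} := Pool.Agent.H74.BTL.pf_HIT

theorem a_COR : T_COR.{u} := Pool.Agent.H38.BTL.pf_COR a_HIT

theorem a_PRB : T_PRB.{u} := Pool.Agent.H80.BTL.pf_PRB a_COR

theorem a_GEO : T_GEO := Pool.Agent.H36.BTL.pf_GEO

theorem a_OVL : T_OVL.{u} := Pool.Agent.H15.BTL.pf_OVL

theorem a_WSS : T_WSS.{u} := Pool.Agent.H15.BTL.pf_WSS

theorem a_CRS : T_CRS.{u} := Pool.Agent.H61.BTL.pf_CRS a_PRB a_GEO a_OVL a_WSS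

theorem a_VAR : T_VAR.{u} := Pool.Agent.H36.BTL.pf_VAR

theorem a_CCL : T_CCL.{u} := Pool.Agent.H36.BTL.pf_CCL

theorem a_TOR : T_TOR.{u} := Pool.Agent.H40.BTL.pf_TOR

theorem a_CUT : T_CUT.{u} := Pool.Agent.H36.BTL.pf_CUT

theorem a_DEC : T_DEC.{u} := Pool.Agent.H79.BTL.pf_DEC a_CRS a_VAR a_CCL a_TOR a_CUT a_WSS

theorem a_INJ : T_INJ.{u} := Pool.Agent.H40.BTL.pf_INJ a_TRI

theorem a_CRA : T_CRA.{u} := Pool.Agent.H1.BTL.pf_CRA a_RKS a_INJ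

theorem a_UIN : T_UIN.{u} := Pool.Agent.H11.BTL.pf_UIN

theorem a_LQ2 : T_LQ2.{u} := Pool.Agent.H15.BTL.pf_LQ2

theorem a_INF : T_INF.{u} := Pool.Agent.H74.BTL.pf_INF a_BND a_NNG a_KMX a_GAP a_HAR a_CMP a_DEC a_CRA a_UIN a_LQ2

theorem a_LSB : T_LSB.{u} := Pool.Agent.H38.BTL.pf_LSB

theorem a_MAIN : T_MAIN.{u} := Pool.Agent.H74.BTL.pf_MAIN a_INF a_LSB a_LQ2

end Pool.Agent.H74.BTL
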