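import Pool.Agent.H62.LP.Dens

/-!
# Finite Littlewood exponent and the first L2-Betti number: definitions
-/

set_option autoImplicit false

open scoped ENNReal RealInnerProductSpace

namespace Pool.Agent.H74.BTL

/-- real square summable functions on `α` -/
abbrev L2 (α : Type*) := lp (fun _ : α => ℝ) 2

section L2

variable {α β : Type*}

/-- the basis vector at `x` -/
noncomputable def dl (x : α) : L2 α := by
  classical exact lp.single 2 x (1 : ℝ)

open Classical in
lemma dl_apply (x y : α) : (dl x : α → ℝ) y = if y = x then 1 else 0 := by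
  unfold dl
  by_cases h : y = x
  · subst h
    rw [lp.single_apply_self, if_pos rfl]
  · rw [lp.single_apply_ne _ _ _ h, if_neg h]

lemma dl_self (x : α) : (dl x : α → ℝ) x = 1 := by rw [dl_apply, if_pos rfl]

lemma dl_ne {x y : α} (h : y ≠ x) : (dl x : α → ℝ) y = 0 := by rw [dl_apply, if_neg h]

lemma inner_dl (x : α) (f : L2 α) : ⟪dl x, f⟫ = f x := by
  classical
  have h := lp.inner_single_left (𝕜 := ℝ) (G := fun _ : α => ℝ) x (1 : ℝ) f
  unfold dl
  rw [h]
  simp

lemma inner_dl_right (x : α) (f : L2 α) : ⟪f, dl x⟫ = f x := by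
  rw [real_inner_comm, inner_dl]

lemma norm_dl (x : α) : ‖(dl x : L2 α)‖ = 1 := by
  have h : ⟪dl x, dl x⟫ = (1 : ℝ) := by rw [inner_dl, dl_self]
  rw [real_inner_self_eq_norm_sq] at h
  nlinarith [norm_nonneg (dl x)]

lemma orthonormal_dl : Orthonormal ℝ (dl : α → L2 α) := by
  refine ⟨norm_dl, fun x y h => ?_⟩
  change ⟪dl x, dl y⟫ = (0 : ℝ)
  rw [inner_dl, dl_ne h]

lemma inner_eq (f g : L2 α) : ⟪f, g⟫ = ∑' x, f x * g x := by
  rw [lp.inner_eq_tsum]
  refine tsum_congr fun x => ?_
  simp [mul_comm]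

lemma norm_sq_eq (f : L2 α) : ‖f‖ ^ 2 = ∑' x, f x ^ 2 := by
  rw [← real_inner_self_eq_norm_sq, inner_eq]
  exact tsum_congr fun x => by ring

lemma summable_sq (f : L2 α) : Summable fun x => f x ^ 2 := by
  have h := (lp.memℓp f).summable (by norm_num)
  refine h.congr fun x => ?_
  simp

lemma memL2 {f : α → ℝ} (h : Summable fun x => f x ^ 2) : Memℓp f 2 := by
  refine memℓp_gen ?_
  refine h.congr fun x => ?_
  simp

/-- composition with an injective map -/
noncomputable def cm (e : β ↪ α) : L2 α →L[ℝ] L2 β :=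
  LinearMap.mkContinuous
    { toFun := fun f => ⟨fun y => f (e y), memL2 ((summable_sq f).comp_injective e.injective)⟩
      map_add' := fun f g => by ext y; rfl
      map_smul' := fun c f => by ext y; rfl } 1 (fun f => by
        rw [one_mul]
        refine le_of_sq_le_sq ?_ (norm_nonneg _)
        rw [norm_sq_eq, norm_sq_eq]
        exact tsum_comp_le_tsum_of_inj (summable_sq f) (fun x => sq_nonneg _) e.injective)

lemma cm_apply (e : β ↪ α) (f : L2 α) (y : β) : (cm e f : β → ℝ) y = f (e y) := rfl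

lemma inner_cm (e : β ≃ α) (f g : L2 α) :
    ⟪cm e.toEmbedding f, cm e.toEmbedding g⟫ = (⟪f, g⟫ : ℝ) := by
  rw [inner_eq, inner_eq]
  exact e.tsum_eq fun x => f x * g x

lemma norm_cm (e : β ≃ α) (f : L2 α) : ‖cm e.toEmbedding f‖ = ‖f‖ := by
  have h := inner_cm e f f
  rw [real_inner_self_eq_norm_sq, real_inner_self_eq_norm_sq] at h
  exact (sq_eq_sq₀ (norm_nonneg _) (norm_nonneg _)).1 h

/-- the kernel -/
noncomputable def kr (T : L2 α →L[ℝ] L2 β) : Submodule ℝ (L2 α) :=
  LinearMap.ker (T : L2 α →ₗ[ℝ] L2 β)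

lemma mem_kr {T : L2 α →L[ℝ] L2 β} {v : L2 α} : v ∈ kr T ↔ T v = 0 := LinearMap.mem_ker

lemma isClosed_kr (T : L2 α →L[ℝ] L2 β) : IsClosed (kr T : Set (L2 α)) := T.isClosed_ker

/-- the image of a subspace -/
noncomputable def mp (T : L2 α →L[ℝ] L2 β) (V : Submodule ℝ (L2 α)) : Submodule ℝ (L2 β) :=
  V.map (T : L2 α →ₗ[ℝ] L2 β)

lemma mem_mp {T : L2 α →L[ℝ] L2 β} {V : Submodule ℝ (L2 α)} {w : L2 β} :
    w ∈ mp T V ↔ ∃ v ∈ V, T v = w := Submodule.mem_map

end L2

section Group

variable {G : Type*} [Group G] {I : Type*}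

/-- right translation on functions on the group: `(rt g f) x = f (x g)` -/
noncomputable def rt (g : G) : L2 G →L[ℝ] L2 G := cm (Equiv.mulRight g).toEmbedding

lemma rt_apply (g : G) (f : L2 G) (x : G) : (rt g f : G → ℝ) x = f (x * g) := rfl

lemma rt_one (f : L2 G) : rt 1 f = f := by
  ext x
  rw [rt_apply, mul_one]

lemma rt_mul (g k : G) (f : L2 G) : rt (g * k) f = rt g (rt k f) := by
  ext x
  rw [rt_apply, rt_apply, rt_apply, mul_assoc]

lemma norm_rt (g : G) (f : L2 G) : ‖rt g f‖ = ‖f‖ := norm_cm _ f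

lemma inner_rt (g : G) (f f' : L2 G) : ⟪rt g f, rt g f'⟫ = (⟪f, f'⟫ : ℝ) := inner_cm _ f f'

/-- left translation of functions on `G × I`: `(lt g f) (x, i) = f (g⁻¹ x, i)` -/
noncomputable def lt (g : G) : L2 (G × I) →L[ℝ] L2 (G × I) :=
  cm ((Equiv.mulLeft g⁻¹).prodCongr (Equiv.refl I)).toEmbedding

lemma lt_apply (g : G) (f : L2 (G × I)) (x : G) (i : I) :
    (lt g f : G × I → ℝ) (x, i) = f (g⁻¹ * x, i) := rfl

lemma lt_one (f : L2 (G × I)) : lt 1 f = f := by
  ext ⟨x, i⟩
  rw [lt_apply, inv_one, one_mul]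

lemma lt_mul (g k : G) (f : L2 (G × I)) : lt (g * k) f = lt g (lt k f) := by
  ext ⟨x, i⟩
  rw [lt_apply, lt_apply, lt_apply, mul_inv_rev, mul_assoc]

lemma norm_lt (g : G) (f : L2 (G × I)) : ‖lt g f‖ = ‖f‖ := norm_cm _ f

lemma inner_lt (g : G) (f f' : L2 (G × I)) : ⟪lt g f, lt g f'⟫ = (⟪f, f'⟫ : ℝ) := inner_cm _ f f'

lemma lt_dl (g x : G) (i : I) : lt g (dl (x, i)) = dl (g * x, i) := by
  ext ⟨y, j⟩
  rw [lt_apply, dl_apply, dl_apply]
  have : (g⁻¹ * y, j) = (x, i) ↔ (y, j) = (g * x, i) := by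
    rw [Prod.mk.injEq, Prod.mk.injEq, inv_mul_eq_iff_eq_mul]
  by_cases h : (y, j) = (g * x, i)
  · rw [if_pos (this.2 h), if_pos h]
  · rw [if_neg fun h' => h (this.1 h'), if_neg h]

/-- `V` is invariant under the left translations -/
def Inv (V : Submodule ℝ (L2 (G × I))) : Prop := ∀ (g : G), ∀ v ∈ V, lt g v ∈ V

/-- `T` commutes with the left translations -/
def Eqv {J : Type*} (T : L2 (G × I) →L[ℝ] L2 (G × J)) : Prop :=
  ∀ (g : G) (v : L2 (G × I)), T (lt g v) = lt g (T v)

end Group

/-- the orthogonal projection to the closure of `V` -/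
noncomputable def PR {E : Type*} [NormedAddCommGroup E] [InnerProductSpace ℝ E] [CompleteSpace E]
    (V : Submodule ℝ E) : E →L[ℝ] E := V.topologicalClosure.starProjection

/-- the dimension of (the closure of) an invariant subspace of `ℓ²(G × I)` -/
noncomputable def dm {G : Type*} [Group G] {I : Type*} [Fintype I]
    (V : Submodule ℝ (L2 (G × I))) : ℝ := ∑ i, ‖PR V (dl ((1 : G), i))‖ ^ 2

section Edges

variable {G : Type*} [Group G] {I : Type*} [Fintype I]

/-- the boundary of a function on the edges `(x, i)` from `x` to `x (s i)`: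
`(bd s a) x = ∑ i, (a (x (s i)⁻¹, i) - a (x, i))` -/
noncomputable def bd (s : I → G) : L2 (G × I) →L[ℝ] L2 (G × Unit) :=
  ∑ i, (cm ⟨fun p : G × Unit => (p.1 * (s i)⁻¹, i), fun p q h => by
      have := mul_right_cancel (Prod.mk.inj h).1
      exact Prod.ext this rfl⟩ -
    cm ⟨fun p : G × Unit => (p.1, i), fun p q h => Prod.ext (Prod.mk.inj h).1 rfl⟩)

lemma bd_apply (s : I → G) (a : L2 (G × I)) (x : G) (u : Unit) :
    (bd s a : G × Unit → ℝ) (x, u) = ∑ i, (a (x * (s i)⁻¹, i) - a (x, i)) := by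
  unfold bd
  rw [sum_apply, lp.coeFn_sum, Finset.sum_apply]
  rfl

/-- the flows with finite support -/
noncomputable def Cf (s : I → G) : Submodule ℝ (L2 (G × I)) where
  carrier := {a | (Function.support (a : G × I → ℝ)).Finite ∧ bd s a = 0}
  zero_mem' := ⟨by
    rw [lp.coeFn_zero, Function.support_zero]
    exact Set.finite_empty, map_zero _⟩
  add_mem' := fun {a b} ha hb => ⟨(ha.1.union hb.1).subset (by
    rw [lp.coeFn_add]
    exact Function.support_add _ _), by rw [map_add, ha.2, hb.2, add_zero]⟩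
  smul_mem' := fun c a ha => ⟨ha.1.subset (by
    rw [lp.coeFn_smul]
    exact Function.support_const_smul_subset _ _), by rw [map_smul, ha.2, smul_zero]⟩

/-- the span of the translates of `v` -/
noncomputable def Et {J : Type*} (v : L2 (G × J)) : Submodule ℝ (L2 (G × J)) :=
  Submodule.span ℝ (Set.range fun g : G => lt g v)

/-- `h` is harmonic with respect to the family `s` and its inverses -/
def Har (s : I → G) (h : G → ℝ) : Prop :=
  ∀ x, ∑ i, (h (x * s i) + h (x * (s i)⁻¹) - 2 * h x) = 0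

lemma mem_Cf (s : I → G) (a : L2 (G × I)) :
    a ∈ Cf s ↔ (Function.support (a : G × I → ℝ)).Finite ∧ bd s a = 0 := Iff.rfl

end Edges

section Pin

variable {G : Type*} {I : Type*}

/-- restriction to the edges of the first kind -/
noncomputable def pin (A : Type*) : L2 (G × (I ⊕ A)) →L[ℝ] L2 (G × I) :=
  cm ⟨fun p => (p.1, Sum.inl p.2), fun p q h => by
    rw [Prod.mk.injEq, Sum.inl.injEq] at h
    exact Prod.ext h.1 h.2⟩

lemma pin_apply {A : Type*} (a : L2 (G × (I ⊕ A))) (x : G) (i : I) :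
    (pin A a : G × I → ℝ) (x, i) = a (x, Sum.inl i) := rfl

end Pin

section Rank

variable {G : Type*} [Group G]

/-- the edge from `g L` to `g s L` in the Schreier graph -/
noncomputable def vL (L : Subgroup G) (s g : G) : (G ⧸ L) →₀ ℝ :=
  Finsupp.single ((g * s : G) : G ⧸ L) 1 - Finsupp.single (g : G ⧸ L) 1

/-- the relative rank of `B` modulo `L` -/
noncomputable def rk (L : Subgroup G) (s : G) (B : Finset G) : ℕ :=
  Module.finrank ℝ (Submodule.span ℝ (vL L s '' (B : Set G)))

/-- the edge from `x` to `x l s l⁻¹` -/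
noncomputable def vx (L : Subgroup G) (s : G) (p : G × L) : G →₀ ℝ :=
  Finsupp.single (p.1 * p.2 * s * (p.2 : G)⁻¹) 1 - Finsupp.single p.1 1

/-- the right translations by elements of `U` have no almost invariant vectors in `ℓ²(G)`
(for finite subsets of `U`): `U` is not amenable -/
def NA (U : Subgroup G) : Prop :=
  ∃ S : Finset G, (∀ s ∈ S, s ∈ U) ∧ ∃ κ : ℝ, 0 < κ ∧
    ∀ f : L2 G, κ * ‖f‖ ^ 2 ≤ ∑ s ∈ S, ‖rt s f - f‖ ^ 2

/-- the mean of the operators `rt (t j)` has norm at most `r` -/
def Ctr {J : Type*} [Fintype J] (t : J → G) (r : ℝ) : Prop :=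
  ∀ f : L2 G, ‖∑ j, rt (t j) f‖ ≤ r * Fintype.card J * ‖f‖

end Rank

section Walk

variable {J : Type*} [Fintype J]

/-- the mean over the words of length `n` -/
noncomputable def EE {E : Type*} [AddCommGroup E] [Module ℝ E] : ℕ → (List J → E) → E
  | 0, f => f []
  | n + 1, f => (Fintype.card J : ℝ)⁻¹ • ∑ j, EE n (fun w => f (j :: w))

section EE

variable {E F ι : Type*} [AddCommGroup E] [Module ℝ E] [AddCommGroup F] [Module ℝ F]

lemma EE_zero (f : List J → E) : EE 0 f = f [] := rfl

lemma EE_succ (n : ℕ) (f : List J → E) :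
    EE (n + 1) f = (Fintype.card J : ℝ)⁻¹ • ∑ j, EE n (fun w => f (j :: w)) := rfl

lemma EE_add (n : ℕ) (f g : List J → E) : EE n (fun w => f w + g w) = EE n f + EE n g := by
  induction n generalizing f g with
  | zero => rfl
  | succ n ih => simp only [EE_succ, ih, Finset.sum_add_distrib, smul_add]

lemma EE_smul (n : ℕ) (c : ℝ) (f : List J → E) : EE n (fun w => c • f w) = c • EE n f := by
  induction n generalizing f with
  | zero => rfl
  | succ n ih =>
    simp only [EE_succ, ih, ← Finset.smul_sum]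
    rw [smul_comm]

lemma EE_fzero (n : ℕ) : EE n (fun _ : List J => (0 : E)) = 0 := by
  induction n with
  | zero => rfl
  | succ n ih => simp only [EE_succ, ih, Finset.sum_const_zero, smul_zero]

lemma EE_sum (n : ℕ) (s : Finset ι) (f : ι → List J → E) :
    EE n (fun w => ∑ i ∈ s, f i w) = ∑ i ∈ s, EE n (f i) := by
  classical
  induction s using Finset.induction_on with
  | empty => simp only [Finset.sum_empty, EE_fzero]
  | insert a s ha ih => simp only [Finset.sum_insert ha, EE_add, ih]

lemma EE_const [Nonempty J] (n : ℕ) (c : E) : EE n (fun _ : List J => c) = c := by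
  induction n with
  | zero => rfl
  | succ n ih =>
    have h : (Fintype.card J : ℝ) ≠ 0 := Nat.cast_ne_zero.2 Fintype.card_ne_zero
    simp only [EE_succ, ih, Finset.sum_const, Finset.card_univ]
    rw [← Nat.cast_smul_eq_nsmul ℝ, smul_smul, inv_mul_cancel₀ h, one_smul]

lemma EE_congr (n : ℕ) {f g : List J → E} (h : ∀ w : List J, w.length = n → f w = g w) :
    EE n f = EE n g := by
  induction n generalizing f g with
  | zero => exact h [] rfl
  | succ n ih =>
    simp only [EE_succ]
    congr 1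
    exact Finset.sum_congr rfl fun j _ => ih fun w hw => h (j :: w) (by simp [hw])

lemma EE_map (n : ℕ) (T : E →ₗ[ℝ] F) (f : List J → E) : EE n (fun w => T (f w)) = T (EE n f) := by
  induction n generalizing f with
  | zero => rfl
  | succ n ih => simp only [EE_succ, ih, map_smul, map_sum]

lemma EE_append (m n : ℕ) (f : List J → E) :
    EE (m + n) f = EE m fun v => EE n fun w => f (v ++ w) := by
  induction m generalizing f with
  | zero => rw [Nat.zero_add]; rfl
  | succ m ih =>
    have h : m + 1 + n = (m + n) + 1 := by omega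
    rw [h, EE_succ, EE_succ]
    simp only [ih, List.cons_append]

lemma EE_swap (m n : ℕ) (f : List J → List J → E) :
    EE m (fun v => EE n fun w => f v w) = EE n fun w => EE m fun v => f v w := by
  induction m generalizing f with
  | zero => rfl
  | succ m ih =>
    simp only [EE_succ, ih, EE_smul, EE_sum]

lemma EE_mono (n : ℕ) {f g : List J → ℝ} (h : ∀ w : List J, w.length = n → f w ≤ g w) :
    EE n f ≤ EE n g := by
  induction n generalizing f g with
  | zero => exact h [] rfl
  | succ n ih =>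
    simp only [EE_succ, smul_eq_mul]
    refine mul_le_mul_of_nonneg_left (Finset.sum_le_sum fun j _ => ih fun w hw => ?_)
      (by positivity)
    exact h (j :: w) (by simp [hw])

lemma EE_nonneg (n : ℕ) {f : List J → ℝ} (h : ∀ w : List J, w.length = n → 0 ≤ f w) :
    0 ≤ EE n f := by
  have h1 := EE_mono n h
  rwa [EE_fzero] at h1

end EE

variable {G : Type*} [Group G]

/-- the product of a word -/
def pr {J : Type*} (t : J → G) (w : List J) : G := (w.map t).prod

lemma pr_nil {J : Type*} (t : J → G) : pr t [] = 1 := rfl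

lemma pr_cons {J : Type*} (t : J → G) (j : J) (w : List J) : pr t (j :: w) = t j * pr t w := by
  simp [pr]

lemma pr_append {J : Type*} (t : J → G) (v w : List J) : pr t (v ++ w) = pr t v * pr t w := by
  simp [pr]

/-- the sum `∑ rt (t₁ ⋯ t_{i-1}) (ζ j_i)` along a word -/
noncomputable def WS {J : Type*} (t : J → G) (ζ : J → L2 G) : List J → L2 G
  | [] => 0
  | j :: w => ζ j + rt (t j) (WS t ζ w)

open Classical in
/-- indicator of a proposition -/
noncomputable def ind (p : Prop) : ℝ := if p then 1 else 0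

lemma ind_true {p : Prop} (h : p) : ind p = 1 := if_pos h

lemma ind_false {p : Prop} (h : ¬ p) : ind p = 0 := if_neg h

lemma ind_nonneg (p : Prop) : 0 ≤ ind p := by
  unfold ind
  split_ifs <;> norm_num

lemma ind_le_one (p : Prop) : ind p ≤ 1 := by
  unfold ind
  split_ifs <;> norm_num

lemma ind_mono {p q : Prop} (h : p → q) : ind p ≤ ind q := by
  by_cases hp : p
  · rw [ind_true hp, ind_true (h hp)]
  · rw [ind_false hp]
    exact ind_nonneg q

end Walk

end Pool.Agent.H74.BTL
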