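import Pool.Agent.H74.BTL.Defs

/-!
# Finite Littlewood exponent and the first L2-Betti number: targets
-/

set_option autoImplicit false

open scoped ENNReal RealInnerProductSpace
open Filter Topology

namespace Pool.Agent.H74.BTL

open Pool.Agent.H62.LP (Lit)

universe u

/-! ### A. Relative rank -/

/-- a vertex of degree one in a forest -/
def T_LEF : Prop := ∀ (V ι : Type u) (E : Finset ι) (a b : ι → V), E.Nonempty →
  LinearIndependent ℝ (fun e : E => (Finsupp.single (b e) 1 - Finsupp.single (a e) 1 : V →₀ ℝ)) →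
  ∃ (v : V) (e₀ : ι), e₀ ∈ E ∧ ((a e₀ = v ∧ b e₀ ≠ v) ∨ (b e₀ = v ∧ a e₀ ≠ v)) ∧
    ∀ e ∈ E, e ≠ e₀ → a e ≠ v ∧ b e ≠ v

/-- lifting of forests -/
def T_LFT : Prop := ∀ (G : Type u) [Group G] (L : Subgroup G) (s : G) (F : Finset G),
  LinearIndependent ℝ (fun g : F => vL L s g) →
  LinearIndependent ℝ (fun p : {p : G × L // p.1 * (p.2 : G) ∈ F} => vx L s p)

/-- the greedy algorithm -/
def T_GRD : Prop := ∀ (β : Type u) (M : Type u) [AddCommGroup M] [Module ℝ M] (v : β → M) (c : ℝ),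
  (∀ B : Finset β, c * B.card ≤ Module.finrank ℝ (Submodule.span ℝ (v '' (B : Set β)))) →
  ∀ (A : Finset β) (w : β → ℕ), ∃ F : Finset β, F ⊆ A ∧
    LinearIndependent ℝ (fun g : F => v g) ∧ c * ∑ g ∈ A, (w g : ℝ) ≤ ∑ g ∈ F, (w g : ℝ)

open Classical in
/-- the density bound -/
def T_DEN : Prop := ∀ (G : Type u) [Group G] (L : Subgroup G) (s : G) (c : ℝ), 0 < c →
  (∀ B : Finset G, c * B.card ≤ rk L s B) → ∀ (X : Finset G) (P : Finset L),
    c * ((X ×ˢ P).filter fun p => p.1 * (p.2 : G) * s * (p.2 : G)⁻¹ ∈ X).card ≤ X.card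

open Classical in
/-- dense finite subgraphs -/
def T_LIT : Prop := ∀ (G : Type u) [Group G], Lit G < ∞ → ∃ c : ℝ, 0 < c ∧ ∃ p : ℝ, 0 < p ∧
  ∀ T : Finset G, T.Nonempty → ∃ Z : Finset G, Z.Nonempty ∧
    c * (T.card : ℝ) ^ (1 / p) * Z.card ≤ ((Z ×ˢ T).filter fun q => q.1 * q.2 ∈ Z).card

/-- Lemma R: the relative rank is small -/
def T_RKS : Prop := ∀ (G : Type u) [Group G], Lit G < ∞ → ∀ ε : ℝ, 0 < ε → ∃ n₀ : ℕ,
  ∀ L : Subgroup G, (¬ Finite L ∨ n₀ < Nat.card L) → ∀ s : G,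
    ∃ B : Finset G, B.Nonempty ∧ (rk L s B : ℝ) < ε * B.card

/-- the trace inequality -/
def T_TRI : Prop := ∀ (E : Type u) [NormedAddCommGroup E] [InnerProductSpace ℝ E] [CompleteSpace E]
  (β : Type u) (e : β → E) (B : Finset β) (V W : Submodule ℝ E), Orthonormal ℝ e →
  W ≤ V.topologicalClosure → W ≤ Submodule.span ℝ (e '' (B : Set β)) →
  (Module.finrank ℝ W : ℝ) ≤ ∑ x ∈ B, ‖PR V (e x)‖ ^ 2

/-- the translates of a nonzero square summable function are almost independent -/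
def T_INJ : Prop := ∀ (G : Type u) [Group G] (ξ : L2 G), ξ ≠ 0 → ∃ c : ℝ, 0 < c ∧
  ∀ B : Finset G, c * B.card ≤
    Module.finrank ℝ (Submodule.span ℝ ((fun (g x : G) => ξ (x * g)) '' (B : Set G)))

/-- Corollary A -/
def T_CRA : Prop := ∀ (G : Type u) [Group G], Lit G < ∞ → ∀ L : Subgroup G, Infinite L →
  ∀ h : G → ℝ, (∀ x, ∀ l ∈ L, h (x * l) = h x) → ∀ (s : G) (ξ : L2 G),
    (∀ x, ξ x = h (x * s) - h x) → ξ = 0

/-! ### B. Dimension -/

/-- adjoints and projections are equivariant -/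
def T_EQA : Prop := ∀ (G : Type u) [Group G] (I J : Type) [Fintype I] [Fintype J],
  (∀ T : L2 (G × I) →L[ℝ] L2 (G × J), Eqv T → Eqv (ContinuousLinearMap.adjoint T)) ∧
  (∀ T : L2 (G × I) →L[ℝ] L2 (G × J), Eqv T → Inv (kr T)) ∧
  (∀ V : Submodule ℝ (L2 (G × I)), Inv V → Inv V.topologicalClosure ∧ Inv Vᗮ ∧ Eqv (PR V) ∧
    ∀ (g : G) (i : I), ‖PR V (dl (g, i))‖ = ‖PR V (dl ((1 : G), i))‖)

/-- basic properties of the dimension -/
def T_DMB : Prop := ∀ (G : Type u) [Group G] (I : Type) [Fintype I],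
  (∀ V W : Submodule ℝ (L2 (G × I)), V ≤ W.topologicalClosure → dm V ≤ dm W) ∧
  (∀ V : Submodule ℝ (L2 (G × I)), 0 ≤ dm V ∧ dm V ≤ Fintype.card I ∧
    dm V.topologicalClosure = dm V ∧ dm Vᗮ = Fintype.card I - dm V) ∧
  (∀ V : Submodule ℝ (L2 (G × I)), Inv V → V ≠ ⊥ → 0 < dm V) ∧
  (∀ V W : Submodule ℝ (L2 (G × I)), (∀ v ∈ V, ∀ w ∈ W, ⟪v, w⟫ = (0 : ℝ)) →
    dm (V ⊔ W) = dm V + dm W)

/-- the trace property -/
def T_TRC : Prop := ∀ (G : Type u) [Group G] (I J : Type) [Fintype I] [Fintype J]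
  (A : L2 (G × I) →L[ℝ] L2 (G × J)) (B : L2 (G × J) →L[ℝ] L2 (G × I)), Eqv A → Eqv B →
  ∑ i, ⟪dl ((1 : G), i), B (A (dl ((1 : G), i)))⟫ =
    (∑ j, ⟪dl ((1 : G), j), A (B (dl ((1 : G), j)))⟫ : ℝ)

/-- traces of powers -/
def T_POW : Prop := ∀ (G : Type u) [Group G] (I J : Type) [Fintype I] [Fintype J]
  (S : L2 (G × I) →L[ℝ] L2 (G × J)) (c : ℝ), Eqv S → ∀ k : ℕ,
  ∑ i, ⟪dl ((1 : G), i), ((1 - c • (ContinuousLinearMap.adjoint S ∘L S)) ^ k) (dl ((1 : G), i))⟫ -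
      (Fintype.card I : ℝ) =
    (∑ j, ⟪dl ((1 : G), j), ((1 - c • (S ∘L ContinuousLinearMap.adjoint S)) ^ k)
      (dl ((1 : G), j))⟫ : ℝ) - Fintype.card J

/-- the mean ergodic theorem for traces -/
def T_MEA : Prop := ∀ (G : Type u) [Group G] (I J : Type) [Fintype I] [Fintype J]
  (S : L2 (G × I) →L[ℝ] L2 (G × J)) (c : ℝ), 0 < c → c * ‖S‖ ^ 2 ≤ 1 →
  Tendsto (fun n : ℕ => (n : ℝ)⁻¹ * ∑ k ∈ Finset.range n, ∑ i, ⟪dl ((1 : G), i),
      ((1 - c • (ContinuousLinearMap.adjoint S ∘L S)) ^ k) (dl ((1 : G), i))⟫) atTop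
    (𝓝 (dm (kr S)))

/-- rank and nullity -/
def T_RNK : Prop := ∀ (G : Type u) [Group G] (I J : Type) [Fintype I] [Fintype J]
  (S : L2 (G × I) →L[ℝ] L2 (G × J)), Eqv S →
  (Fintype.card I : ℝ) - dm (kr S) =
    Fintype.card J - dm (kr (ContinuousLinearMap.adjoint S))

/-- rank and nullity on a closed invariant subspace -/
def T_RNT : Prop := ∀ (G : Type u) [Group G] (I J : Type) [Fintype I] [Fintype J]
  (T : L2 (G × I) →L[ℝ] L2 (G × J)) (V : Submodule ℝ (L2 (G × I))), Eqv T → Inv V →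
  dm V = dm (V.topologicalClosure ⊓ kr T) +
    dm (mp T V)

/-- dimension of two subspaces with intersection zero -/
def T_ADD : Prop := ∀ (G : Type u) [Group G] (I : Type) [Fintype I]
  (V W Z : Submodule ℝ (L2 (G × I))), Inv V → Inv W → Inv Z →
  V.topologicalClosure ⊓ W.topologicalClosure = ⊥ → V ≤ Z.topologicalClosure →
  W ≤ Z.topologicalClosure → dm V + dm W ≤ dm Z

/-- the boundary operator -/
def T_BDF : Prop := ∀ (G : Type u) [Group G] (I : Type) [Fintype I] (s : I → G),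
  Eqv (bd s) ∧ Inv (Cf s) ∧ Cf s ≤ kr (bd s) ∧
  (∀ (x : G) (i : I), bd s (dl (x, i)) = dl (x * s i, ()) - dl (x, ())) ∧
  (∀ (f : L2 (G × Unit)) (x : G) (i : I),
    (ContinuousLinearMap.adjoint (bd s) f : G × I → ℝ) (x, i) = f (x * s i, ()) - f (x, ()))

/-- the dimension of the space of square summable flows -/
def T_ZDM : Prop := ∀ (G : Type u) [Group G] (I : Type) [Fintype I] (s : I → G),
  (Fintype.card I : ℝ) - 1 ≤ dm (kr (bd s)) ∧
  (Infinite G → Subgroup.closure (Set.range s) = ⊤ →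
    dm (kr (bd s)) ≤ (Fintype.card I : ℝ) - 1)

/-- the gradient of a function is square summable in all directions -/
def T_CMP : Prop := ∀ (G : Type u) [Group G] (I : Type) [Fintype I] (s : I → G) (h : G → ℝ),
  Subgroup.closure (Set.range s) = ⊤ →
  (∀ i, ∃ ξ : L2 G, ∀ x, ξ x = h (x * s i) - h x) → ∀ g, ∃ ξ : L2 G, ∀ x, ξ x = h (x * g) - h x

/-- gradients are perpendicular to the flows with finite support; gradients of harmonic functions
are flows -/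
def T_ORT : Prop := ∀ (G : Type u) [Group G] (I : Type) [Fintype I] (s : I → G) (h : G → ℝ)
  (dh : L2 (G × I)), (∀ x i, dh (x, i) = h (x * s i) - h x) →
  (∀ a ∈ Cf s, ∀ g : G, ⟪a, lt g dh⟫ = (0 : ℝ)) ∧
  (Har s h → Et dh ≤ kr (bd s)) ∧ Inv (Et dh)

/-! ### C. Finite subgroups are bounded -/

/-- functions with zero sums on the cosets are boundaries -/
def T_BDY : Prop := ∀ (G : Type u) [Group G] (A : Type) [Fintype A] (a : A → G) (L : Subgroup G),
  Subgroup.closure (Set.range a) = L → ∀ f : G →₀ ℝ,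
  Finsupp.mapDomain (fun x : G => (x : G ⧸ L)) f = 0 →
  ∃ b : (G × A) →₀ ℝ, f = b.sum fun p r => Finsupp.single (p.1 * a p.2) r - Finsupp.single p.1 r

/-- flows on the new edges, `L` finite -/
def T_LWA : Prop := ∀ (G : Type u) [Group G] (I A : Type) [Fintype I] [Fintype A] (s : I → G)
  (a : A → G) (L : Subgroup G), Finite L → (∀ y, y ∈ L ↔ ∃ α, a α = y) →
  (Fintype.card A : ℝ) - 1 ≤ dm ((Cf (Sum.elim s a)).topologicalClosure ⊓
    kr (pin A))

/-- restrictions of flows to the old edges -/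
def T_LWB : Prop := ∀ (G : Type u) [Group G] (I A : Type) [Fintype I] [Fintype A] (s : I → G)
  (a : A → G) (L : Subgroup G) (ε : ℝ), Subgroup.closure (Set.range a) = L → 0 < ε →
  (∀ i, ∃ B : Finset G, B.Nonempty ∧ (rk L (s i) B : ℝ) < ε * B.card) →
  (Fintype.card I : ℝ) * (1 - ε) ≤
    dm (mp (pin A) (Cf (Sum.elim s a)))

/-- the upper bound -/
def T_UPP : Prop := ∀ (G : Type u) [Group G] (I A : Type) [Fintype I] [Fintype A] (s : I → G)
  (a : A → G) (h : G → ℝ) (dh : L2 (G × I)), Infinite G → Subgroup.closure (Set.range s) = ⊤ →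
  Har s h → (∀ x i, dh (x, i) = h (x * s i) - h x) →
  dm (Cf (Sum.elim s a)) ≤ (Fintype.card I : ℝ) + Fintype.card A - 1 - dm (Et dh)

/-- finite subgroups are bounded, no elements of infinite order -/
def T_BND : Prop := ∀ (G : Type u) [Group G] (I : Type) [Fintype I] (s : I → G)
  (h : G → ℝ) (dh : L2 (G × I)), Lit G < ∞ → Infinite G → Subgroup.closure (Set.range s) = ⊤ →
  Har s h → (∀ x i, dh (x, i) = h (x * s i) - h x) → dh ≠ 0 →
  ∃ n₀ : ℕ, ∀ L : Subgroup G, (Finite L ∨ ∃ a, L = Subgroup.zpowers a) →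
    Finite L ∧ Nat.card L ≤ n₀

/-! ### D. Spectral gap -/

open Classical in
/-- almost invariant sets -/
def T_FOL : Prop := ∀ (G : Type u) [Group G], ¬ NA (⊤ : Subgroup G) → ∀ (S : Finset G) (ε : ℝ),
  0 < ε → ∃ X : Finset G, X.Nonempty ∧ ∀ s ∈ S, ((X.filter fun x => x * s ∉ X).card : ℝ) ≤
    ε * X.card

open Classical in
/-- the flows with finite support in the amenable case -/
def T_AMB : Prop := ∀ (G : Type u) [Group G] (I : Type) [Fintype I] (s : I → G),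
  (∀ ε : ℝ, 0 < ε → ∃ X : Finset G, X.Nonempty ∧
    ∀ i, ((X.filter fun x => x * s i ∉ X).card : ℝ) ≤ ε * X.card) →
  (Fintype.card I : ℝ) - 1 ≤ dm (Cf s)

/-- not amenable -/
def T_NNG : Prop := ∀ (G : Type u) [Group G] (I : Type) [Fintype I] (s : I → G)
  (h : G → ℝ) (dh : L2 (G × I)), Infinite G → Subgroup.closure (Set.range s) = ⊤ →
  Har s h → (∀ x i, dh (x, i) = h (x * s i) - h x) → dh ≠ 0 → NA (⊤ : Subgroup G)

/-- a family with spectral gap -/
def T_GAP : Prop := ∀ (G : Type u) [Group G] (U : Subgroup G), NA U →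
  ∃ (N : ℕ) (t : Fin N → G) (r : ℝ), 0 < N ∧ (∀ j, t j ∈ U) ∧ 0 ≤ r ∧ r < 1 ∧ Ctr t r

/-- the group generated by a family with spectral gap is infinite -/
def T_UIN : Prop := ∀ (G : Type u) [Group G] (J : Type) [Fintype J] [Nonempty J] (t : J → G)
  (r : ℝ), r < 1 → Ctr t r → Infinite (Subgroup.closure (Set.range t))

/-- a finite subgroup of maximal order with non-amenable normalizer -/
def T_KMX : Prop := ∀ (G : Type u) [Group G] (n₀ : ℕ), NA (⊤ : Subgroup G) →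
  (∀ L : Subgroup G, Finite L → Nat.card L ≤ n₀) →
  ∃ K : Subgroup G, Finite K ∧ NA (Subgroup.normalizer (K : Set G)) ∧
    ∀ K' : Subgroup G, Finite K' → Nat.card K < Nat.card K' →
      ¬ NA (Subgroup.normalizer (K' : Set G))

/-- the harmonic correction -/
def T_HAR : Prop := ∀ (G : Type u) [Group G] (K : Subgroup G) (J : Type) [Fintype J] [Nonempty J]
  (t : J → G) (r : ℝ) (h : G → ℝ), Finite K → (∀ j, t j ∈ Subgroup.normalizer (K : Set G)) →
  0 ≤ r → r < 1 → Ctr t r → (∀ g, ∃ ξ : L2 G, ∀ x, ξ x = h (x * g) - h x) →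
  ∃ ζ : L2 G, (∀ k ∈ K, ∀ x, h (x * k) - ζ (x * k) = h x - ζ x) ∧
    ∀ x, ∑ j, ((h (x * t j) - ζ (x * t j)) - (h x - ζ x)) = 0

/-! ### E. Decorrelation -/

/-- the variance of the walk -/
def T_VAR : Prop := ∀ (G : Type u) [Group G] (J : Type) [Fintype J] [Nonempty J] (t : J → G)
  (ζ : J → L2 G), ∑ j, ζ j = 0 → ∀ n : ℕ,
  EE n (fun w => ‖WS t ζ w‖ ^ 2) = n * ((Fintype.card J : ℝ)⁻¹ * ∑ j, ‖ζ j‖ ^ 2)

/-- cocycles along words -/
def T_CCL : Prop := ∀ (G : Type u) [Group G] (J : Type) (t : J → G) (b : G → L2 G),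
  (∀ g k, b (g * k) = b g + rt g (b k)) → ∀ w : List J, b (pr t w) = WS t (fun j => b (t j)) w

/-- the sum along a word -/
def T_WSS : Prop := ∀ (G : Type u) [Group G] (J : Type) (t : J → G) (ζ ξ : J → L2 G),
  (∀ w : List J, WS t ζ w = ∑ i : Fin w.length, rt (pr t (w.take i)) (ζ (w.get i))) ∧
  (∀ w : List J, WS t (fun j => ζ j + ξ j) w = WS t ζ w + WS t ξ w)

open Classical in
/-- the torsion relation -/
def T_TOR : Prop := ∀ (G : Type u) [Group G] (K : Subgroup G) (b : G → L2 G) (m : ℕ) (g : G),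
  (∀ g k, b (g * k) = b g + rt g (b k)) → 0 < m → g ^ m = 1 → (∀ k ∈ K, rt k (b g) = b g) →
  ‖b g‖ ^ 2 ≤ ∑ k ∈ (Finset.range m).filter (fun k => g ^ k ∉ K), |⟪b g, rt (g ^ k) (b g)⟫|

open Classical in
/-- cutting -/
def T_CUT : Prop := ∀ (G : Type u) [Group G] (J : Type) [Fintype J] (ζ : J → L2 G) (e : ℝ), 0 < e →
  ∃ (B : Finset G) (ξ : J → L2 G), (∀ j x, ξ j x = if x ∈ B then ζ j x else 0) ∧
    ∑ j, ‖ζ j - ξ j‖ ^ 2 ≤ e

/-- hitting probabilities of cosets of amenable subgroups -/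
def T_HIT : Prop := ∀ (G : Type u) [Group G] (V : Subgroup G) (J : Type) [Fintype J] [Nonempty J]
  (t : J → G) (r : ℝ), 0 ≤ r → r < 1 → Ctr t r → ¬ NA V → ∀ (g : G) (l : ℕ),
  EE l (fun w : List J => ind (g⁻¹ * pr t w ∈ V)) ≤ r ^ l

/-- the situation of the decorrelation lemma -/
structure Sit (G : Type u) [Group G] (K : Subgroup G) (J : Type) [Fintype J] (t : J → G) (r : ℝ)
    (m : ℕ) : Prop where
  fin : Finite K
  mem : ∀ j, t j ∈ Subgroup.normalizer (K : Set G)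
  r0 : 0 ≤ r
  r1 : r < 1
  ctr : Ctr t r
  m0 : 0 < m
  tor : ∀ g : G, g ^ m = 1
  max : ∀ K' : Subgroup G, Finite K' → Nat.card K < Nat.card K' →
    ¬ NA (Subgroup.normalizer (K' : Set G))

/-- roots of a fixed element outside of `K` are hit rarely -/
def T_COR : Prop := ∀ (G : Type u) [Group G] (K : Subgroup G) (J : Type) [Fintype J] [Nonempty J]
  (t : J → G) (r : ℝ) (m : ℕ), Sit G K J t r m → ∀ (v x : G) (k l : ℕ),
  v ∈ Subgroup.normalizer (K : Set G) →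
  EE l (fun y : List J => ind ((v * pr t y) ^ k = x ∧ x ∉ K)) ≤ r ^ l

/-- the probability of an overlap -/
def T_PRB : Prop := ∀ (G : Type u) [Group G] (K : Subgroup G) (J : Type) [Fintype J] [Nonempty J]
  (t : J → G) (r : ℝ) (m : ℕ), Sit G K J t r m → ∀ (D : Finset G) (n i j k : ℕ), i < n → j < n →
  EE n (fun w : List J => ind ((pr t (w.take i))⁻¹ * pr t w ^ k * pr t (w.take j) ∈ D ∧
    pr t w ^ k ∉ K)) ≤ D.card * r ^ (n - (max i j - min i j))

/-- the sum over all pairs -/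
def T_GEO : Prop := ∀ r : ℝ, 0 ≤ r → r < 1 → ∃ C : ℝ, ∀ n : ℕ,
  ∑ i ∈ Finset.range n, ∑ j ∈ Finset.range n, r ^ (n - (max i j - min i j)) ≤ C

/-- inner products of translates of functions with finite support -/
def T_OVL : Prop := ∀ (G : Type u) [Group G] (B : Finset G), ∃ D : Finset G, ∀ (ξ η : L2 G)
  (g g' : G), (∀ x, x ∉ B → ξ x = 0) → (∀ x, x ∉ B → η x = 0) →
  |⟪rt g ξ, rt g' η⟫| ≤ ‖ξ‖ * ‖η‖ * ind (g⁻¹ * g' ∈ D)

/-- the cross terms are bounded -/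
def T_CRS : Prop := ∀ (G : Type u) [Group G] (K : Subgroup G) (J : Type) [Fintype J] [Nonempty J]
  (t : J → G) (r : ℝ) (m : ℕ), Sit G K J t r m → ∀ (B : Finset G) (ξ : J → L2 G),
  (∀ j x, x ∉ B → ξ j x = 0) → ∃ C : ℝ, ∀ n k : ℕ,
  EE n (fun w : List J => ind (pr t w ^ k ∉ K) * |⟪WS t ξ w, rt (pr t w ^ k) (WS t ξ w)⟫|) ≤ C

/-- the decorrelation lemma -/
def T_DEC : Prop := ∀ (G : Type u) [Group G] (K : Subgroup G) (J : Type) [Fintype J] [Nonempty J]
  (t : J → G) (r : ℝ) (m : ℕ), Sit G K J t r m → ∀ b : G → L2 G,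
  (∀ g k, b (g * k) = b g + rt g (b k)) →
  (∀ g ∈ Subgroup.normalizer (K : Set G), ∀ k ∈ K, rt k (b g) = b g) → ∑ j, b (t j) = 0 →
  ∀ j, b (t j) = 0

/-! ### F. The end -/

/-- harmonic functions which differ from a constant by a square summable function -/
def T_LQ2 : Prop := ∀ (G : Type u) [Group G] (I : Type) [Fintype I] (s : I → G) (ζ : L2 G),
  Har s (fun x => ζ x) → ∀ x i, ζ (x * s i) = ζ x

/-- the theorem for infinite finitely generated groups -/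
def T_INF : Prop := ∀ (G : Type u) [Group G] (I : Type) [Fintype I] (s : I → G)
  (h : G → ℝ) (dh : L2 (G × I)), Lit G < ∞ → Infinite G → Subgroup.closure (Set.range s) = ⊤ →
  Har s h → (∀ x i, dh (x, i) = h (x * s i) - h x) → dh = 0

/-- subgroups -/
def T_LSB : Prop := ∀ (G : Type u) [Group G] (H : Subgroup G), Lit G < ∞ → Lit H < ∞

/-- the main theorem -/
def T_MAIN : Prop := ∀ (G : Type u) [Group G], Lit G < ∞ → ∀ S : Finset G,
  (∀ s ∈ S, s⁻¹ ∈ S) → ∀ h : G → ℝ,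
  (Summable fun p : G × S => (h (p.1 * p.2) - h p.1) ^ 2) →
  (∀ x, ∑ s ∈ S, (h (x * s) - h x) = 0) → ∀ x, ∀ s ∈ S, h (x * s) = h x

end Pool.Agent.H74.BTL
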